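import Mathlib

/-!
# States of unital C*-algebras

The first lemmas (`bound_pos`, `pos_of_norm`, `herm`, `cs`, `norm_bound`) are copied from
`Pool.Agent.H386R2.Kad5.RState`.
-/

set_option autoImplicit false

open scoped ComplexOrder InnerProductSpace ComplexConjugate
open Finset

namespace Pool.Agent.W658.Irrep

universe v

variable {D : Type v} [CStarAlgebra D]

/-- `‖x‖ ^ 2 - x* x` is positive -/
theorem bound_pos (x : D) : ∃ y : D, ((‖x‖ ^ 2 : ℝ) : ℂ) • (1 : D) - star x * x = star y * y := by
  letI := CStarAlgebra.spectralOrder D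
  haveI := CStarAlgebra.spectralOrderedRing D
  have h1 : star x * x ≤ algebraMap ℝ D ‖star x * x‖ :=
    IsSelfAdjoint.le_algebraMap_norm_self (IsSelfAdjoint.star_mul_self x)
  have h2 : 0 ≤ algebraMap ℝ D ‖star x * x‖ - star x * x := sub_nonneg.2 h1
  obtain ⟨y, hy⟩ := CStarAlgebra.nonneg_iff_eq_star_mul_self.1 h2
  refine ⟨y, ?_⟩
  rw [← hy, CStarRing.norm_star_mul_self, ← pow_two, Algebra.algebraMap_eq_smul_one]
  rfl

theorem bound_pos' (b : D) (hb : ∃ x, b = star x * x) :
    ∃ y : D, ((‖b‖ : ℝ) : ℂ) • (1 : D) - b = star y * y := by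
  obtain ⟨x, rfl⟩ := hb
  obtain ⟨y, hy⟩ := bound_pos x
  refine ⟨y, ?_⟩
  rw [← hy, CStarRing.norm_star_mul_self, ← pow_two]

/-- norm one functionals with value one at `1` are positive -/
theorem pos_of_norm (g : D →L[ℂ] ℂ) (hg : ‖g‖ = 1) (h1 : g 1 = 1) (x : D) :
    0 ≤ g (star x * x) := by
  have hn : ∀ a, ‖g a‖ ≤ ‖a‖ := fun a => by
    have := g.le_opNorm a
    rwa [hg, one_mul] at this
  -- self-adjoint elements have real values
  have him : ∀ a : D, star a = a → (g a).im = 0 := by
    intro a ha
    have key : ∀ t : ℝ, 2 * (g a).im * t ≤ ‖a‖ ^ 2 := by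
      intro t
      have e1 : ‖a + (Complex.I * t) • (1 : D)‖ ^ 2 ≤ ‖a‖ ^ 2 + t ^ 2 := by
        rw [pow_two, ← CStarRing.norm_star_mul_self]
        have e2 : star (a + (Complex.I * t) • (1 : D)) * (a + (Complex.I * t) • (1 : D)) =
            a * a + ((t ^ 2 : ℝ) : ℂ) • (1 : D) := by
          rw [star_add, ha, star_smul, star_one, add_mul, mul_add, mul_add, smul_mul_assoc,
            mul_smul_comm, mul_smul_comm, one_mul, mul_one, smul_mul_assoc, one_mul, smul_smul]
          have e3 : star (Complex.I * (t : ℂ)) = -(Complex.I * t) := by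
            simp
          have e4 : Complex.I * (t : ℂ) * -(Complex.I * t) = ((t ^ 2 : ℝ) : ℂ) := by
            push_cast
            linear_combination -(t : ℂ) ^ 2 * Complex.I_sq
          rw [e3, e4, neg_smul]
          abel
        rw [e2]
        refine (norm_add_le _ _).trans ?_
        refine add_le_add ?_ ?_
        · rw [pow_two]
          exact norm_mul_le _ _
        · refine (norm_smul_le _ _).trans ?_
          have h1' : ‖(1 : D)‖ ≤ 1 := by
            rcases subsingleton_or_nontrivial D with h | h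
            · rw [Subsingleton.elim (1 : D) 0, norm_zero]; norm_num
            · rw [CStarRing.norm_one]
          rw [Complex.norm_real, Real.norm_eq_abs, abs_of_nonneg (sq_nonneg t)]
          nlinarith [sq_nonneg t]
      have e5 : ‖g (a + (Complex.I * t) • (1 : D))‖ ^ 2 ≤ ‖a‖ ^ 2 + t ^ 2 :=
        (pow_le_pow_left₀ (norm_nonneg _) (hn _) 2).trans e1
      rw [map_add, map_smul, h1, smul_eq_mul, mul_one, ← Complex.normSq_eq_norm_sq,
        Complex.normSq_apply] at e5
      simp only [Complex.add_re, Complex.mul_re, Complex.I_re, Complex.ofReal_re, zero_mul,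
        Complex.I_im, Complex.ofReal_im, mul_zero, sub_zero, add_zero, Complex.add_im,
        Complex.mul_im, one_mul, zero_add] at e5
      nlinarith [sq_nonneg (g a).re, sq_nonneg (g a).im]
    by_contra h0
    have k1 := key ((‖a‖ ^ 2 + 1) / (2 * (g a).im))
    have k2 : 2 * (g a).im * ((‖a‖ ^ 2 + 1) / (2 * (g a).im)) = ‖a‖ ^ 2 + 1 := by
      field_simp
    linarith
  set b := star x * x with hb
  have hbs : star b = b := by rw [hb, star_mul, star_star]
  have hre : |‖b‖ - (g b).re| ≤ ‖b‖ := by
    letI := CStarAlgebra.spectralOrder D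
    haveI := CStarAlgebra.spectralOrderedRing D
    have hb0 : 0 ≤ b := star_mul_self_nonneg x
    have h2 : b ≤ algebraMap ℝ D ‖b‖ :=
      IsSelfAdjoint.le_algebraMap_norm_self (IsSelfAdjoint.star_mul_self x)
    have h3 : 0 ≤ algebraMap ℝ D ‖b‖ - b := sub_nonneg.2 h2
    have h4 : ‖algebraMap ℝ D ‖b‖ - b‖ ≤ ‖b‖ := by
      have h5 : algebraMap ℝ D ‖b‖ - b ≤ algebraMap ℝ D ‖b‖ := sub_le_self _ hb0
      refine (CStarAlgebra.norm_le_norm_of_nonneg_of_le h3 h5).trans ?_
      rw [Algebra.algebraMap_eq_smul_one]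
      refine (norm_smul_le _ _).trans ?_
      have h1' : ‖(1 : D)‖ ≤ 1 := by
        rcases subsingleton_or_nontrivial D with h | h
        · rw [Subsingleton.elim (1 : D) 0, norm_zero]; norm_num
        · rw [CStarRing.norm_one]
      rw [norm_norm]
      nlinarith [norm_nonneg b]
    have h6 := (hn (algebraMap ℝ D ‖b‖ - b)).trans h4
    have h7 : g (algebraMap ℝ D ‖b‖ - b) = (‖b‖ : ℂ) - g b := by
      rw [map_sub, Algebra.algebraMap_eq_smul_one]
      congr 1
      have : (‖b‖ : ℝ) • (1 : D) = ((‖b‖ : ℝ) : ℂ) • (1 : D) := rfl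
      rw [this, map_smul, h1, smul_eq_mul, mul_one]
    rw [h7] at h6
    refine le_trans ?_ h6
    have := Complex.abs_re_le_norm ((‖b‖ : ℂ) - g b)
    simpa using this
  rw [Complex.le_def]
  refine ⟨?_, (him b hbs).symm⟩
  have := (abs_le.1 hre).2
  simp only [Complex.zero_re]
  linarith

section positive

variable (f : D → ℂ) (hadd : ∀ a b, f (a + b) = f a + f b) (hsm : ∀ (c : ℂ) a, f (c • a) = c * f a)
  (hpos : ∀ a, 0 ≤ f (star a * a)) (hone : f 1 = 1)

include hadd hsm hpos hone

/-- positive functionals are hermitian -/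
theorem herm (a : D) : f (star a) = conj (f a) := by
  have h1 := hpos (a + 1)
  have h2 := hpos (a + Complex.I • (1 : D))
  have h3 := hpos a
  have e1 : star (a + 1) * (a + 1) = star a * a + star a + a + 1 := by
    rw [star_add, star_one, add_mul, mul_add, one_mul, mul_one]
    abel
  have e2 : star (a + Complex.I • (1 : D)) * (a + Complex.I • (1 : D)) =
      star a * a + Complex.I • star a + (-Complex.I) • a + 1 := by
    rw [star_add, star_smul, star_one, add_mul, mul_add, mul_add, smul_mul_assoc, mul_smul_comm,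
      mul_smul_comm, one_mul, mul_one, smul_mul_assoc, one_mul, smul_smul]
    have e3 : star Complex.I = -Complex.I := by simp
    rw [e3]
    have e4 : Complex.I * -Complex.I = 1 := by rw [mul_neg, Complex.I_mul_I, neg_neg]
    rw [e4, one_smul]
    abel
  rw [e1, hadd, hadd, hadd, hone] at h1
  rw [e2, hadd, hadd, hadd, hsm, hsm, hone] at h2
  rw [Complex.le_def] at h1 h2 h3
  have i1 := h1.2
  have i2 := h2.2
  have i3 := h3.2
  simp only [Complex.zero_im, Complex.add_im, Complex.one_im, Complex.mul_im, Complex.I_re,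
    Complex.I_im, Complex.neg_re, Complex.neg_im] at i1 i2 i3
  refine Complex.ext ?_ ?_
  · rw [Complex.conj_re]
    linarith
  · rw [Complex.conj_im]
    linarith

theorem cs (a : D) : ‖f a‖ ^ 2 ≤ (f (star a * a)).re := by
  have h1 := hpos (a + (-(f a)) • (1 : D))
  have hh := herm f hadd hsm hpos hone a
  have e2 : star (a + (-(f a)) • (1 : D)) * (a + (-(f a)) • (1 : D)) =
      star a * a + (-(f a)) • star a + (-conj (f a)) • a + (conj (f a) * f a) • 1 := by
    rw [star_add, star_smul, star_one, add_mul, mul_add, mul_add, smul_mul_assoc, mul_smul_comm,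
      mul_smul_comm, one_mul, mul_one, smul_mul_assoc, one_mul, smul_smul]
    have e3 : star (-(f a)) = -conj (f a) := by
      rw [star_neg]
      rfl
    rw [e3, neg_mul_neg, mul_comm (f a)]
    abel
  rw [e2, hadd, hadd, hadd, hsm, hsm, hsm, hone, hh] at h1
  have h2 := (Complex.le_def.1 h1).1
  have e3 : f (star a * a) + -f a * conj (f a) + -conj (f a) * f a + conj (f a) * f a * 1 =
      f (star a * a) - ((‖f a‖ ^ 2 : ℝ) : ℂ) := by
    have : conj (f a) * f a = ((‖f a‖ ^ 2 : ℝ) : ℂ) := by
      rw [mul_comm, Complex.mul_conj, Complex.normSq_eq_norm_sq]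
    linear_combination -this
  rw [e3] at h2
  simp only [Complex.zero_re, Complex.sub_re, Complex.ofReal_re] at h2
  linarith

theorem norm_bound (a : D) : ‖f a‖ ≤ ‖a‖ := by
  obtain ⟨y, hy⟩ := bound_pos a
  have h1 := (Complex.le_def.1 (hpos y)).1
  have h0 : ∀ a b, f (a - b) = f a - f b := by
    intro a b
    have := hadd a ((-1 : ℂ) • b)
    rw [hsm, neg_one_smul, ← sub_eq_add_neg] at this
    rw [this]
    ring
  rw [← hy, h0, hsm, hone, mul_one] at h1
  simp only [Complex.zero_re, Complex.sub_re, Complex.ofReal_re] at h1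
  have h2 := cs f hadd hsm hpos hone a
  exact le_of_sq_le_sq (by linarith) (norm_nonneg _)

end positive

end Pool.Agent.W658.Irrep
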