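import Mathlib

/-!
# Tools for completely positive maps to and from matrix algebras
-/

set_option autoImplicit false

open scoped CStarAlgebra ComplexOrder InnerProductSpace

namespace Pool.Agent.W658.Cone

open scoped MatrixOrder in
lemma exists_factor {m : Type} [Fintype m] [DecidableEq m] {M : Matrix m m ℂ} (h : M.PosSemidef) :
    ∃ B : Matrix m m ℂ, M = B.conjTranspose * B :=
  CStarAlgebra.nonneg_iff_eq_star_mul_self.mp h.nonneg

/-- a positive semidefinite matrix is positive in the C*-algebra of matrices -/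
lemma nonneg_of_psd {n : ℕ} (M : CStarMatrix (Fin n) (Fin n) ℂ)
    (h : (Matrix.of fun i j => M i j).PosSemidef) : 0 ≤ M := by
  obtain ⟨B, hB⟩ := exists_factor h
  have : M = star (CStarMatrix.ofMatrix B) * CStarMatrix.ofMatrix B := by
    ext i j
    have := congrFun (congrFun hB i) j
    simpa [Matrix.mul_apply, CStarMatrix.mul_apply, CStarMatrix.star_apply] using this
  rw [this]
  exact star_mul_self_nonneg _

/-- the same for matrices over matrices -/
lemma nonneg_of_psd_flat {k n : ℕ} (M : CStarMatrix (Fin k) (Fin k) (CStarMatrix (Fin n) (Fin n) ℂ))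
    (h : (Matrix.of fun (x y : Fin k × Fin n) => M x.1 y.1 x.2 y.2).PosSemidef) : 0 ≤ M := by
  obtain ⟨B, hB⟩ := exists_factor h
  let Z : CStarMatrix (Fin k) (Fin k) (CStarMatrix (Fin n) (Fin n) ℂ) :=
    CStarMatrix.ofMatrix fun i j => CStarMatrix.ofMatrix fun p q => B (i, p) (j, q)
  have : M = star Z * Z := by
    ext i j p q
    have := congrFun (congrFun hB (i, p)) (j, q)
    simp only [Matrix.of_apply, Matrix.mul_apply, Matrix.conjTranspose_apply] at this
    rw [this, CStarMatrix.mul_apply, Fintype.sum_prod_type]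
    have h2 : ∀ (s : Finset (Fin k)) (f : Fin k → CStarMatrix (Fin n) (Fin n) ℂ),
        (∑ x ∈ s, f x) p q = ∑ x ∈ s, f x p q := by
      intro s f
      induction s using Finset.cons_induction with
      | empty => rfl
      | cons a s ha ih => rw [Finset.sum_cons, Finset.sum_cons, CStarMatrix.add_apply, ih]
    rw [h2]
    refine Finset.sum_congr rfl fun x _ => ?_
    rw [CStarMatrix.mul_apply]
    rfl
  rw [this]
  exact star_mul_self_nonneg _

/-- to check complete positivity it suffices to look at matrices `Y^* Y` -/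
lemma cp_of {A B : Type} [NonUnitalCStarAlgebra A] [PartialOrder A] [StarOrderedRing A]
    [NonUnitalCStarAlgebra B] [PartialOrder B] [StarOrderedRing B] (φ : A →ₗ[ℂ] B)
    (h : ∀ (k : ℕ) (Y : CStarMatrix (Fin k) (Fin k) A), 0 ≤ (star Y * Y).map φ) (k : ℕ)
    (M : CStarMatrix (Fin k) (Fin k) A) (hM : 0 ≤ M) : 0 ≤ M.map φ := by
  rw [StarOrderedRing.nonneg_iff] at hM
  induction hM using AddSubmonoid.closure_induction with
  | mem x hx =>
    obtain ⟨Y, rfl⟩ := hx
    exact h k Y
  | zero =>
    have : CStarMatrix.map (0 : CStarMatrix (Fin k) (Fin k) A) φ = 0 := by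
      ext i j
      exact map_zero φ
    rw [this]
  | add x y _ _ hx hy =>
    have : CStarMatrix.map (x + y) φ = x.map φ + y.map φ := by
      ext i j
      exact map_add φ _ _
    rw [this]
    exact add_nonneg hx hy

section compress

variable {A : Type} [NonUnitalCStarAlgebra A]
variable {K : Type} [NormedAddCommGroup K] [InnerProductSpace ℂ K] [CompleteSpace K]

/-- the compression of a representation to the span of finitely many vectors -/
noncomputable def comprLin (π : A →⋆ₙₐ[ℂ] (K →L[ℂ] K)) {n : ℕ} (v : Fin n → K) :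
    A →ₗ[ℂ] CStarMatrix (Fin n) (Fin n) ℂ where
  toFun a := CStarMatrix.ofMatrix fun p q => ⟪v p, π a (v q)⟫_ℂ
  map_add' a b := by
    ext p q
    show ⟪v p, π (a + b) (v q)⟫_ℂ = ⟪v p, π a (v q)⟫_ℂ + ⟪v p, π b (v q)⟫_ℂ
    rw [map_add, add_apply, inner_add_right]
  map_smul' c a := by
    ext p q
    show ⟪v p, π (c • a) (v q)⟫_ℂ = c * ⟪v p, π a (v q)⟫_ℂ
    rw [map_smul, smul_apply, inner_smul_right]

lemma comprLin_apply (π : A →⋆ₙₐ[ℂ] (K →L[ℂ] K)) {n : ℕ} (v : Fin n → K) (a : A) (p q : Fin n) :
    comprLin π v a p q = ⟪v p, π a (v q)⟫_ℂ := rfl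

omit [CompleteSpace K] in
lemma inner_self_nonneg' (x : K) : (0 : ℂ) ≤ ⟪x, x⟫_ℂ := by
  rw [inner_self_eq_norm_sq_to_K, ← RCLike.ofReal_pow]
  exact RCLike.ofReal_nonneg.2 (sq_nonneg _)

variable [PartialOrder A] [StarOrderedRing A]

/-- compressions are completely positive -/
noncomputable def compr (π : A →⋆ₙₐ[ℂ] (K →L[ℂ] K)) {n : ℕ} (v : Fin n → K) :
    A →CP CStarMatrix (Fin n) (Fin n) ℂ where
  toLinearMap := comprLin π v
  map_cstarMatrix_nonneg' := by
    refine cp_of _ fun k Y => ?_
    apply nonneg_of_psd_flat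
    have key : ∀ (i j : Fin k) (p q : Fin n),
        comprLin π v ((star Y * Y) i j) p q
          = ∑ l, ⟪π (Y l i) (v p), π (Y l j) (v q)⟫_ℂ := by
      intro i j p q
      rw [CStarMatrix.mul_apply, comprLin_apply, map_sum, sum_apply, inner_sum]
      refine Finset.sum_congr rfl fun l _ => ?_
      rw [CStarMatrix.star_apply, map_mul, map_star, mul_apply_eq_comp,
        ContinuousLinearMap.star_eq_adjoint, ContinuousLinearMap.adjoint_inner_right]
    refine Matrix.PosSemidef.of_dotProduct_mulVec_nonneg ?_ ?_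
    · ext x y
      rw [Matrix.conjTranspose_apply, Matrix.of_apply, Matrix.of_apply]
      show star (comprLin π v ((star Y * Y) y.1 x.1) y.2 x.2)
        = comprLin π v ((star Y * Y) x.1 y.1) x.2 y.2
      rw [key, key, star_sum]
      refine Finset.sum_congr rfl fun l _ => ?_
      exact inner_conj_symm _ _
    · intro c
      have h1 : star c ⬝ᵥ (Matrix.of fun (x y : Fin k × Fin n) =>
          (CStarMatrix.map (star Y * Y) (comprLin π v)) x.1 y.1 x.2 y.2).mulVec c
          = ∑ l, ⟪∑ x : Fin k × Fin n, c x • π (Y l x.1) (v x.2),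
              ∑ y : Fin k × Fin n, c y • π (Y l y.1) (v y.2)⟫_ℂ := by
        simp only [dotProduct, Matrix.mulVec, Pi.star_apply, Matrix.of_apply]
        have h2 : ∀ x y : Fin k × Fin n, (CStarMatrix.map (star Y * Y) (comprLin π v)) x.1 y.1 x.2 y.2
            = ∑ l, ⟪π (Y l x.1) (v x.2), π (Y l y.1) (v y.2)⟫_ℂ := fun x y => key _ _ _ _
        have h3 : ∀ l, ⟪∑ x : Fin k × Fin n, c x • π (Y l x.1) (v x.2),
              ∑ y : Fin k × Fin n, c y • π (Y l y.1) (v y.2)⟫_ℂ
            = ∑ x : Fin k × Fin n, ∑ y : Fin k × Fin n,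
              star (c x) * (⟪π (Y l x.1) (v x.2), π (Y l y.1) (v y.2)⟫_ℂ * c y) := by
          intro l
          rw [sum_inner]
          refine Finset.sum_congr rfl fun x _ => ?_
          rw [inner_sum]
          refine Finset.sum_congr rfl fun y _ => ?_
          rw [inner_smul_left, inner_smul_right, RCLike.star_def]
          ring
        simp only [h2, h3]
        simp only [Finset.mul_sum, Finset.sum_mul]
        calc _ = ∑ x : Fin k × Fin n, ∑ l, ∑ y : Fin k × Fin n,
              star (c x) * (⟪π (Y l x.1) (v x.2), π (Y l y.1) (v y.2)⟫_ℂ * c y) := by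
              refine Finset.sum_congr rfl fun x _ => ?_
              rw [Finset.sum_comm]
          _ = _ := by
              rw [Finset.sum_comm]
      rw [h1]
      exact Finset.sum_nonneg fun l _ => inner_self_nonneg' _

lemma compr_apply (π : A →⋆ₙₐ[ℂ] (K →L[ℂ] K)) {n : ℕ} (v : Fin n → K) (a : A) (p q : Fin n) :
    compr π v a p q = ⟪v p, π a (v q)⟫_ℂ := rfl

/-- Schwarz inequality and norm bound for compressions to orthonormal vectors -/
lemma norm_compr_le (π : A →⋆ₙₐ[ℂ] (K →L[ℂ] K)) {n : ℕ} {v : Fin n → K} (hv : Orthonormal ℂ v)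
    (a : A) : ‖compr π v a‖ ≤ ‖a‖ := by
  have hn : ∀ c : Fin n → ℂ, ‖∑ i, c i • v i‖ ^ 2 = ∑ i, ‖c i‖ ^ 2 := by
    intro c
    have h := hv.inner_sum c c Finset.univ
    rw [inner_self_eq_norm_sq_to_K] at h
    have h2 : ∑ i, (starRingEnd ℂ) (c i) * c i = ((∑ i, ‖c i‖ ^ 2 : ℝ) : ℂ) := by
      push_cast
      refine Finset.sum_congr rfl fun i _ => ?_
      rw [Complex.conj_mul']
    rw [h2] at h
    exact Complex.ofReal_injective (by rw [← h]; exact Complex.ofReal_pow _ _)
  have hw : ∀ w : WithCStarModule ℂ (Fin n → ℂ), ‖∑ i, star (w i) • v i‖ = ‖w‖ := by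
    intro w
    have h1 : ‖∑ i, star (w i) • v i‖ ^ 2 = ‖w‖ ^ 2 := by
      rw [hn, WithCStarModule.pi_norm_sq]
      simp only [WithCStarModule.inner_def]
      have h3 : ∀ i, w i * star (w i) = ((‖w i‖ ^ 2 : ℝ) : ℂ) := by
        intro i
        rw [RCLike.star_def, Complex.mul_conj']
        push_cast
        rfl
      simp only [h3, norm_star]
      rw [← Complex.ofReal_sum, Complex.norm_real, Real.norm_of_nonneg]
      positivity
    exact (sq_eq_sq₀ (norm_nonneg _) (norm_nonneg _)).1 h1
  have h := CStarMatrix.norm_le_of_forall_inner_le (A := ℂ) (M := compr π v a) (C := ‖a‖₊) ?_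
  · exact h
  intro x y
  have h4 : ⟪y, CStarMatrix.toCLM (compr π v a) x⟫_ℂ
      = ⟪∑ i, star (x i) • v i, π a (∑ j, star (y j) • v j)⟫_ℂ := by
    rw [CStarMatrix.toCLM_apply_eq_sum, WithCStarModule.pi_inner]
    simp only [WithCStarModule.inner_def, map_sum, map_smul, sum_inner, inner_sum, inner_smul_left,
      inner_smul_right, Finset.sum_mul, WithCStarModule.equiv_symm_pi_apply, compr_apply,
      RCLike.star_def, Complex.conj_conj]
    simp only [Finset.mul_sum]
    refine Finset.sum_congr rfl fun i _ => Finset.sum_congr rfl fun j _ => ?_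
    ring
  rw [h4]
  calc ‖⟪∑ i, star (x i) • v i, π a (∑ j, star (y j) • v j)⟫_ℂ‖
      ≤ ‖∑ i, star (x i) • v i‖ * ‖π a (∑ j, star (y j) • v j)‖ := norm_inner_le_norm _ _
    _ ≤ ‖x‖ * (‖a‖ * ‖y‖) := by
        rw [hw x]
        refine mul_le_mul_of_nonneg_left ?_ (norm_nonneg _)
        refine ((π a).le_opNorm _).trans ?_
        rw [hw y]
        exact mul_le_mul_of_nonneg_right (NonUnitalStarAlgHom.norm_apply_le π a) (norm_nonneg _)
    _ = _ := by
        rw [coe_nnnorm]
        ring

end compress

section kraus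

variable {A : Type} [NonUnitalCStarAlgebra A] [PartialOrder A] [StarOrderedRing A]

/-- maps `Y ↦ ∑ k Y k^*` -/
noncomputable def krausLin {m n : ℕ} (r : Fin m → Fin n → A) :
    CStarMatrix (Fin n) (Fin n) ℂ →ₗ[ℂ] A where
  toFun Y := ∑ i, ∑ p, ∑ q, Y p q • (r i p * star (r i q))
  map_add' a b := by
    simp only [CStarMatrix.add_apply, add_smul, Finset.sum_add_distrib]
  map_smul' c a := by
    simp only [CStarMatrix.smul_apply, smul_eq_mul, mul_smul, Finset.smul_sum, RingHom.id_apply]

lemma rank_nonneg {k : ℕ} (z : Fin k → A) :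
    0 ≤ (CStarMatrix.ofMatrix fun a b => star (z a) * z b : CStarMatrix (Fin k) (Fin k) A) := by
  rcases Nat.eq_zero_or_pos k with rfl | hk
  · apply le_of_eq
    ext a
    exact a.elim0
  · let i0 : Fin k := ⟨0, hk⟩
    let Z : CStarMatrix (Fin k) (Fin k) A := CStarMatrix.ofMatrix fun i j => if i = i0 then z j else 0
    have : (CStarMatrix.ofMatrix fun a b => star (z a) * z b : CStarMatrix (Fin k) (Fin k) A)
        = star Z * Z := by
      ext a b
      rw [CStarMatrix.mul_apply, Finset.sum_eq_single i0]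
      · rw [CStarMatrix.star_apply]
        show _ = star (if i0 = i0 then z a else 0) * (if i0 = i0 then z b else 0)
        rw [if_pos rfl, if_pos rfl]
        rfl
      · intro i _ hi
        rw [CStarMatrix.star_apply]
        show star (if i = i0 then z a else 0) * (if i = i0 then z b else 0) = 0
        rw [if_neg hi, if_neg hi, mul_zero]
      · intro h
        exact absurd (Finset.mem_univ _) h
    rw [this]
    exact star_mul_self_nonneg _

/-- Kraus maps are completely positive -/
noncomputable def kraus {m n : ℕ} (r : Fin m → Fin n → A) :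
    CStarMatrix (Fin n) (Fin n) ℂ →CP A where
  toLinearMap := krausLin r
  map_cstarMatrix_nonneg' := by
    refine cp_of _ fun k Y => ?_
    have key : CStarMatrix.map (star Y * Y) (krausLin r)
        = ∑ i : Fin m, ∑ l : Fin k, ∑ t : Fin n,
          (CStarMatrix.ofMatrix fun a b => star (∑ q, (Y l a t q) • star (r i q))
            * ∑ q, (Y l b t q) • star (r i q) : CStarMatrix (Fin k) (Fin k) A) := by
      ext a b
      have hs : ∀ (ι : Type) (s : Finset ι) (f : ι → CStarMatrix (Fin k) (Fin k) A),
          (∑ x ∈ s, f x) a b = ∑ x ∈ s, f x a b := by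
        intro ι s f
        classical
        induction s using Finset.cons_induction with
        | empty => rfl
        | cons a s ha ih => rw [Finset.sum_cons, Finset.sum_cons, CStarMatrix.add_apply, ih]
      simp only [hs]
      show ∑ i, ∑ p, ∑ q, ((star Y * Y) a b) p q • (r i p * star (r i q))
        = ∑ i : Fin m, ∑ l : Fin k, ∑ t : Fin n, (star (∑ q, (Y l a t q) • star (r i q))
            * ∑ q, (Y l b t q) • star (r i q))
      refine Finset.sum_congr rfl fun i _ => ?_
      have h2 : ∀ p q, ((star Y * Y) a b) p q = ∑ l, ∑ t, star (Y l a t p) * Y l b t q := by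
        intro p q
        rw [CStarMatrix.mul_apply]
        have h3 : ∀ (s : Finset (Fin k)) (f : Fin k → CStarMatrix (Fin n) (Fin n) ℂ),
            (∑ x ∈ s, f x) p q = ∑ x ∈ s, f x p q := by
          intro s f
          induction s using Finset.cons_induction with
          | empty => rfl
          | cons a s ha ih => rw [Finset.sum_cons, Finset.sum_cons, CStarMatrix.add_apply, ih]
        rw [h3]
        refine Finset.sum_congr rfl fun l _ => ?_
        rw [CStarMatrix.mul_apply]
        rfl
      simp only [h2, star_sum, star_smul, star_star, Finset.sum_mul, Finset.mul_sum, Finset.sum_smul,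
        smul_mul_smul_comm]
      calc _ = ∑ p, ∑ l, ∑ q, ∑ t, (star (Y l a t p) * Y l b t q) • (r i p * star (r i q)) := by
            refine Finset.sum_congr rfl fun p _ => ?_
            rw [Finset.sum_comm]
        _ = ∑ l, ∑ p, ∑ q, ∑ t, (star (Y l a t p) * Y l b t q) • (r i p * star (r i q)) := by
            rw [Finset.sum_comm]
        _ = ∑ l, ∑ p, ∑ t, ∑ q, (star (Y l a t p) * Y l b t q) • (r i p * star (r i q)) := by
            refine Finset.sum_congr rfl fun l _ => Finset.sum_congr rfl fun p _ => ?_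
            rw [Finset.sum_comm]
        _ = ∑ l, ∑ t, ∑ p, ∑ q, (star (Y l a t p) * Y l b t q) • (r i p * star (r i q)) := by
            refine Finset.sum_congr rfl fun l _ => ?_
            rw [Finset.sum_comm]
        _ = _ := by
            refine Finset.sum_congr rfl fun l _ => Finset.sum_congr rfl fun t _ => ?_
            rw [Finset.sum_comm]
    rw [key]
    exact Finset.sum_nonneg fun i _ => Finset.sum_nonneg fun l _ => Finset.sum_nonneg fun t _ =>
      rank_nonneg _

lemma kraus_apply {m n : ℕ} (r : Fin m → Fin n → A) (Y : CStarMatrix (Fin n) (Fin n) ℂ) :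
    kraus r Y = ∑ i, ∑ p, ∑ q, Y p q • (r i p * star (r i q)) := rfl

/-- Kraus maps are contractive if `∑ r r^*` has norm at most one -/
lemma norm_kraus_le {m n : ℕ} (r : Fin m → Fin n → A)
    (hr : ‖∑ i, ∑ p, r i p * star (r i p)‖ ≤ 1)
    (Y : CStarMatrix (Fin n) (Fin n) ℂ) : ‖kraus r Y‖ ≤ ‖Y‖ := by
  let d : Fin m × Fin n → A := fun j => ∑ q, Y j.2 q • star (r j.1 q)
  let x : WithCStarModule A (Fin m × Fin n → A) := fun j => star (d j)
  let y : WithCStarModule A (Fin m × Fin n → A) := fun j => r j.1 j.2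
  have h1 : kraus r Y = ⟪x, y⟫_A := by
    rw [WithCStarModule.pi_inner]
    simp only [WithCStarModule.inner_def]
    rw [Fintype.sum_prod_type, kraus_apply]
    refine Finset.sum_congr rfl fun i _ => Finset.sum_congr rfl fun p _ => ?_
    show _ = r i p * star (star (∑ q, Y p q • star (r i q)))
    rw [star_star, Finset.mul_sum]
    refine Finset.sum_congr rfl fun q _ => ?_
    rw [mul_smul_comm]
  have hy : ‖y‖ ≤ 1 := by
    have : ‖y‖ ^ 2 ≤ 1 := by
      rw [WithCStarModule.pi_norm_sq]
      simp only [WithCStarModule.inner_def]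
      rw [Fintype.sum_prod_type]
      exact hr
    nlinarith [norm_nonneg y]
  have hx : ‖x‖ ≤ ‖Y‖ := by
    have h2 : ‖x‖ ^ 2 = ‖kraus r (star Y * Y)‖ := by
      rw [WithCStarModule.pi_norm_sq]
      simp only [WithCStarModule.inner_def]
      congr 1
      rw [Fintype.sum_prod_type, kraus_apply]
      refine Finset.sum_congr rfl fun i _ => ?_
      show ∑ p, star (∑ q, Y p q • star (r i q)) * star (star (∑ q, Y p q • star (r i q)))
        = ∑ q, ∑ q', (star Y * Y) q q' • (r i q * star (r i q'))
      have h5 : ∀ p, star (∑ q, Y p q • star (r i q)) * star (star (∑ q, Y p q • star (r i q)))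
          = ∑ q, ∑ q', (star (Y p q) * Y p q') • (r i q * star (r i q')) := by
        intro p
        rw [star_star, star_sum, Finset.sum_mul_sum]
        refine Finset.sum_congr rfl fun q _ => Finset.sum_congr rfl fun q' _ => ?_
        rw [star_smul, star_star, smul_mul_smul_comm]
      have h6 : ∀ q q', (star Y * Y) q q' = ∑ p, star (Y p q) * Y p q' := by
        intro q q'
        rw [CStarMatrix.mul_apply]
        rfl
      simp only [h5, h6, Finset.sum_smul]
      rw [Finset.sum_comm]
      refine Finset.sum_congr rfl fun q _ => ?_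
      rw [Finset.sum_comm]
    have h3 : kraus r (star Y * Y) ≤ ‖Y‖ ^ 2 • ∑ i, ∑ p, r i p * star (r i p) := by
      have h7 : kraus r (algebraMap ℝ _ (‖Y‖ ^ 2)) = ‖Y‖ ^ 2 • ∑ i, ∑ p, r i p * star (r i p) := by
        rw [kraus_apply, Finset.smul_sum]
        refine Finset.sum_congr rfl fun i _ => ?_
        rw [Finset.smul_sum]
        refine Finset.sum_congr rfl fun p _ => ?_
        rw [Finset.sum_eq_single p]
        · have : (algebraMap ℝ (CStarMatrix (Fin n) (Fin n) ℂ) (‖Y‖ ^ 2)) p p
              = ((‖Y‖ ^ 2 : ℝ) : ℂ) := by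
            rw [Algebra.algebraMap_eq_smul_one, CStarMatrix.smul_apply, CStarMatrix.one_apply_eq]
            simp
          rw [this]
          exact Complex.coe_smul _ _
        · intro q _ hq
          have : (algebraMap ℝ (CStarMatrix (Fin n) (Fin n) ℂ) (‖Y‖ ^ 2)) p q = 0 := by
            rw [Algebra.algebraMap_eq_smul_one, CStarMatrix.smul_apply,
              CStarMatrix.one_apply_ne (Ne.symm hq), smul_zero]
          rw [this, zero_smul]
        · intro h
          exact absurd (Finset.mem_univ _) h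
      rw [← h7]
      exact OrderHomClass.mono (kraus r) CStarAlgebra.star_mul_le_algebraMap_norm_sq
    have h4 : ‖x‖ ^ 2 ≤ ‖Y‖ ^ 2 := by
      rw [h2]
      refine (CStarAlgebra.norm_le_norm_of_nonneg_of_le
        (map_nonneg (kraus r) (star_mul_self_nonneg Y)) h3).trans ?_
      rw [norm_smul, Real.norm_of_nonneg (sq_nonneg _)]
      exact mul_le_of_le_one_right (sq_nonneg _) hr
    exact (sq_le_sq₀ (norm_nonneg _) (norm_nonneg _)).1 h4
  calc ‖kraus r Y‖ = ‖⟪x, y⟫_A‖ := by rw [h1]
    _ ≤ ‖x‖ * ‖y‖ := CStarModule.norm_inner_le _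
    _ ≤ ‖Y‖ * 1 := mul_le_mul hx hy (norm_nonneg _) (norm_nonneg _)
    _ = _ := mul_one _

end kraus

end Pool.Agent.W658.Cone
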