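import Mathlib

/-!
# The Cuntz isometries on `ℓ²(ℕ)`
-/

set_option autoImplicit false

open scoped InnerProductSpace

namespace Pool.Agent.W658.Cone

/-- the Hilbert space `ℓ²(ℕ)` -/
abbrev H : Type := lp (fun _ : ℕ => ℂ) 2

/-- the operators on `ℓ²(ℕ)` -/
abbrev BH : Type := H →L[ℂ] H

/-- the standard basis of `ℓ²(ℕ)` -/
noncomputable def bas : HilbertBasis ℕ ℂ H := ⟨LinearIsometryEquiv.refl ℂ H⟩

lemma ext_bas {K : Type} [NormedAddCommGroup K] [InnerProductSpace ℂ K] {S T : H →L[ℂ] K}
    (h : ∀ n, S (bas n) = T (bas n)) : S = T := by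
  refine ContinuousLinearMap.ext_on (s := Set.range bas) ?_ ?_
  · have := bas.dense_span
    rw [Submodule.dense_iff_topologicalClosure_eq_top]
    exact this
  · rintro _ ⟨n, rfl⟩
    exact h n

lemma ext_inner_bas {x y : H} (h : ∀ n, ⟪bas n, x⟫_ℂ = ⟪bas n, y⟫_ℂ) : x = y := by
  apply bas.repr.injective
  ext n
  rw [bas.repr_apply_apply, bas.repr_apply_apply, h n]

/-- the map `n ↦ 2 n + b` -/
def dbl (b : Bool) (n : ℕ) : ℕ := 2 * n + (if b then 1 else 0)

lemma dbl_inj (b : Bool) : Function.Injective (dbl b) := by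
  intro m n h
  simp only [dbl] at h
  omega

lemma dbl_ne {b c : Bool} (h : b ≠ c) (m n : ℕ) : dbl b m ≠ dbl c n := by
  cases b <;> cases c <;> simp_all [dbl] <;> omega

lemma exists_dbl (n : ℕ) : ∃ b m, n = dbl b m := by
  rcases Nat.even_or_odd' n with ⟨m, h | h⟩
  · exact ⟨false, m, by simp [dbl, h]⟩
  · exact ⟨true, m, by simp [dbl, h]⟩

lemma ons (b : Bool) : Orthonormal ℂ (fun n => bas (dbl b n)) :=
  bas.orthonormal.comp (dbl b) (dbl_inj b)

/-- the Cuntz isometries: `s b` maps the `n`-th basis vector to the basis vector of index `2 n + b` -/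
noncomputable def s (b : Bool) : BH :=
  ((ons b).orthogonalFamily.linearIsometry).toContinuousLinearMap

lemma s_bas (b : Bool) (n : ℕ) : s b (bas n) = bas (dbl b n) := by
  have h : bas n = lp.single 2 n (1 : ℂ) := by
    rw [← bas.repr_symm_single n]
    rfl
  rw [h]
  show (ons b).orthogonalFamily.linearIsometry (lp.single 2 n (1 : ℂ)) = _
  rw [OrthogonalFamily.linearIsometry_apply_single]
  simp [LinearIsometry.toSpanSingleton_apply]

lemma inner_bas (m n : ℕ) : ⟪bas m, bas n⟫_ℂ = if m = n then 1 else 0 :=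
  orthonormal_iff_ite.1 bas.orthonormal m n

lemma star_s_bas (b c : Bool) (n : ℕ) :
    star (s b) (bas (dbl c n)) = if b = c then bas n else 0 := by
  rw [ContinuousLinearMap.star_eq_adjoint]
  refine ext_inner_bas fun m => ?_
  rw [ContinuousLinearMap.adjoint_inner_right, s_bas, inner_bas]
  by_cases hbc : b = c
  · subst hbc
    rw [if_pos rfl, inner_bas]
    simp [(dbl_inj b).eq_iff]
  · rw [if_neg hbc, if_neg (dbl_ne hbc m n), inner_zero_right]

lemma star_s_mul_s (b c : Bool) : star (s b) * s c = if b = c then 1 else 0 := by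
  refine ext_bas fun n => ?_
  rw [mul_apply_eq_comp, s_bas, star_s_bas]
  split_ifs with h
  · simp
  · simp

lemma star_s_mul_s_self (b : Bool) : star (s b) * s b = 1 := by
  rw [star_s_mul_s, if_pos rfl]

lemma star_s_mul_s_ne {b c : Bool} (h : b ≠ c) : star (s b) * s c = 0 := by
  rw [star_s_mul_s, if_neg h]

lemma s_sum : s false * star (s false) + s true * star (s true) = 1 := by
  refine ext_bas fun n => ?_
  obtain ⟨b, m, rfl⟩ := exists_dbl n
  rw [add_apply, mul_apply_eq_comp, mul_apply_eq_comp,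
    star_s_bas, star_s_bas]
  cases b <;> simp [s_bas]

/-- the isometry of a word -/
noncomputable def S (μ : List Bool) : BH := (μ.map s).prod

@[simp] lemma S_nil : S [] = 1 := rfl

@[simp] lemma S_cons (b : Bool) (μ : List Bool) : S (b :: μ) = s b * S μ := by
  simp [S]

lemma S_append (μ ν : List Bool) : S (μ ++ ν) = S μ * S ν := by simp [S]

lemma star_S_mul_S_self (μ : List Bool) : star (S μ) * S μ = 1 := by
  induction μ with
  | nil => simp
  | cons b μ ih =>
    rw [S_cons, star_mul, mul_assoc, ← mul_assoc (star (s b)), star_s_mul_s_self, one_mul, ih]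

/-- the special unit vector -/
noncomputable def xi : H := bas 1

lemma norm_xi : ‖xi‖ = 1 := bas.orthonormal.1 1

lemma S_xi (μ : List Bool) : ∃ n, S μ xi = bas n ∧ μ.length < n ∧ (μ = [] → n = 1) := by
  induction μ with
  | nil => exact ⟨1, by simp [xi], by simp, fun _ => rfl⟩
  | cons b μ ih =>
    obtain ⟨n, h1, h2, _⟩ := ih
    refine ⟨dbl b n, ?_, ?_, by simp⟩
    · rw [S_cons, mul_apply_eq_comp, h1, s_bas]
    · simp only [dbl, List.length_cons]
      omega

lemma inner_S_xi {μ : List Bool} (hμ : μ ≠ []) : ⟪xi, S μ xi⟫_ℂ = 0 := by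
  obtain ⟨n, h1, h2, _⟩ := S_xi μ
  rw [h1, xi, inner_bas, if_neg]
  have : 0 < μ.length := List.length_pos_iff.2 hμ
  omega

/-- the words of length `k` -/
def W : ℕ → Finset (List Bool)
  | 0 => {[]}
  | k + 1 => (W k).image (List.cons false) ∪ (W k).image (List.cons true)

lemma sum_W_succ {M : Type} [AddCommMonoid M] (k : ℕ) (f : List Bool → M) :
    ∑ μ ∈ W (k + 1), f μ = ∑ μ ∈ W k, f (false :: μ) + ∑ μ ∈ W k, f (true :: μ) := by
  rw [W, Finset.sum_union, Finset.sum_image, Finset.sum_image]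
  · intro a _ b _ h
    exact (List.cons_inj_right _).1 h
  · intro a _ b _ h
    exact (List.cons_inj_right _).1 h
  · rw [Finset.disjoint_left]
    intro a h1 h2
    rw [Finset.mem_image] at h1 h2
    obtain ⟨x, _, rfl⟩ := h1
    obtain ⟨y, _, h⟩ := h2
    simp at h

lemma sum_W_succ' {M : Type} [AddCommMonoid M] (k : ℕ) (f : List Bool → M) :
    ∑ μ ∈ W (k + 1), f μ = ∑ b : Bool, ∑ μ ∈ W k, f (b :: μ) := by
  rw [sum_W_succ, Fintype.sum_bool, add_comm]

lemma length_of_mem_W {k : ℕ} {μ : List Bool} (h : μ ∈ W k) : μ.length = k := by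
  induction k generalizing μ with
  | zero => simp [W] at h; simp [h]
  | succ k ih =>
    rw [W, Finset.mem_union, Finset.mem_image, Finset.mem_image] at h
    rcases h with ⟨ν, h1, rfl⟩ | ⟨ν, h1, rfl⟩ <;> simp [ih h1]

lemma sum_S_star_S (k : ℕ) : ∑ μ ∈ W k, S μ * star (S μ) = 1 := by
  induction k with
  | zero => simp [W]
  | succ k ih =>
    have h : ∀ b, ∑ μ ∈ W k, S (b :: μ) * star (S (b :: μ)) = s b * star (s b) := by
      intro b
      calc ∑ μ ∈ W k, S (b :: μ) * star (S (b :: μ))
          = ∑ μ ∈ W k, s b * (S μ * star (S μ)) * star (s b) := by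
            refine Finset.sum_congr rfl fun μ _ => ?_
            rw [S_cons, star_mul]
            simp only [mul_assoc]
        _ = s b * (∑ μ ∈ W k, S μ * star (S μ)) * star (s b) := by
            rw [Finset.mul_sum, Finset.sum_mul]
        _ = _ := by rw [ih, mul_one]
    rw [sum_W_succ, h, h, s_sum]

/-- the operator `∑_{|μ| = k} ⟨S_μ ξ, η⟩ S_μ` -/
noncomputable def TT (k : ℕ) (η : H) : BH := ∑ μ ∈ W k, ⟪S μ xi, η⟫_ℂ • S μ

lemma TT_s (k : ℕ) (b : Bool) (η : H) : TT (k + 1) (s b η) = s b * TT k η := by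
  have h : ∀ c, ∑ μ ∈ W k, ⟪S (c :: μ) xi, s b η⟫_ℂ • S (c :: μ)
      = if c = b then s b * TT k η else 0 := by
    intro c
    have h2 : ∀ μ : List Bool, ⟪S (c :: μ) xi, s b η⟫_ℂ = if c = b then ⟪S μ xi, η⟫_ℂ else 0 := by
      intro μ
      rw [S_cons, mul_apply_eq_comp]
      have : ⟪s c (S μ xi), s b η⟫_ℂ = ⟪S μ xi, (star (s c) * s b) η⟫_ℂ := by
        rw [mul_apply_eq_comp, ContinuousLinearMap.star_eq_adjoint,
          ContinuousLinearMap.adjoint_inner_right]
      rw [this, star_s_mul_s]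
      split_ifs with h3
      · simp
      · simp
    split_ifs with h3
    · subst h3
      rw [TT, Finset.mul_sum]
      refine Finset.sum_congr rfl fun μ _ => ?_
      rw [h2, if_pos rfl, S_cons, mul_smul_comm]
    · refine Finset.sum_eq_zero fun μ _ => ?_
      rw [h2, if_neg h3, zero_smul]
  rw [TT, sum_W_succ, h, h]
  cases b <;> simp

lemma TT_S (k : ℕ) (α : List Bool) (η : H) : TT (α.length + k) (S α η) = S α * TT k η := by
  induction α with
  | nil => simp
  | cons b α ih =>
    rw [List.length_cons, S_cons, mul_apply_eq_comp,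
      show α.length + 1 + k = (α.length + k) + 1 by ring, TT_s, ih, mul_assoc]

lemma inner_S_S {μ ν : List Bool} (h : μ ≠ ν) (hl : μ.length ≤ ν.length) :
    ⟪S μ xi, S ν xi⟫_ℂ = 0 := by
  induction μ generalizing ν with
  | nil =>
    rw [S_nil]
    exact inner_S_xi (fun h' => h h'.symm)
  | cons b μ ih =>
    cases ν with
    | nil => simp at hl
    | cons c ν =>
      rw [S_cons, S_cons, mul_apply_eq_comp, mul_apply_eq_comp]
      have : ⟪s b (S μ xi), s c (S ν xi)⟫_ℂ = ⟪S μ xi, (star (s b) * s c) (S ν xi)⟫_ℂ := by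
        rw [mul_apply_eq_comp, ContinuousLinearMap.star_eq_adjoint,
          ContinuousLinearMap.adjoint_inner_right]
      rw [this]
      by_cases hbc : b = c
      · subst hbc
        rw [star_s_mul_s_self, one_apply_eq_self]
        exact ih (fun h' => h (by rw [h'])) (by simpa using hl)
      · rw [star_s_mul_s_ne hbc]
        simp

lemma inner_S_S' {μ ν : List Bool} (h : μ ≠ ν) : ⟪S μ xi, S ν xi⟫_ℂ = 0 := by
  rcases le_total μ.length ν.length with h1 | h1
  · exact inner_S_S h h1
  · rw [← inner_conj_symm, inner_S_S (Ne.symm h) h1, map_zero]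

lemma inner_S_self (μ : List Bool) : ⟪S μ xi, S μ xi⟫_ℂ = 1 := by
  have : ⟪S μ xi, S μ xi⟫_ℂ = ⟪xi, (star (S μ) * S μ) xi⟫_ℂ := by
    rw [mul_apply_eq_comp, ContinuousLinearMap.star_eq_adjoint,
      ContinuousLinearMap.adjoint_inner_right]
  rw [this, star_S_mul_S_self, one_apply_eq_self, inner_self_eq_norm_sq_to_K, norm_xi]
  simp

lemma TT_S_xi {k : ℕ} (ν : List Bool) (h : ν.length ≠ k) : TT k (S ν xi) = 0 := by
  refine Finset.sum_eq_zero fun μ hμ => ?_
  rw [inner_S_S', zero_smul]
  rintro rfl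
  exact h (length_of_mem_W hμ)

lemma mem_W (μ : List Bool) : μ ∈ W μ.length := by
  induction μ with
  | nil => simp [W]
  | cons b μ ih =>
    rw [List.length_cons, W, Finset.mem_union, Finset.mem_image, Finset.mem_image]
    cases b
    · exact Or.inl ⟨μ, ih, rfl⟩
    · exact Or.inr ⟨μ, ih, rfl⟩

lemma TT_S_xi' (ν : List Bool) : TT ν.length (S ν xi) = S ν := by
  rw [TT, Finset.sum_eq_single ν]
  · rw [inner_S_self, one_smul]
  · intro μ _ h
    rw [inner_S_S' h, zero_smul]
  · intro h
    exact absurd (mem_W ν) h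

/-- `∑_{|μ| = k, |ν| = l} ⟨S_μ ξ, a S_ν ξ⟩ S_μ S_ν^*` -/
noncomputable def UU (k l : ℕ) (a : BH) : BH := ∑ ν ∈ W l, TT k (a (S ν xi)) * star (S ν)

lemma UU_S (k l : ℕ) (α : List Bool) (a : BH) : UU (α.length + k) l (S α * a) = S α * UU k l a := by
  rw [UU, UU, Finset.mul_sum]
  refine Finset.sum_congr rfl fun ν _ => ?_
  rw [mul_apply_eq_comp, TT_S, mul_assoc]

lemma TT_zero (k : ℕ) : TT k 0 = 0 := by
  refine Finset.sum_eq_zero fun μ _ => ?_
  rw [inner_zero_right, zero_smul]

lemma UU_star_s (k l : ℕ) (b : Bool) (a : BH) :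
    UU k (l + 1) (a * star (s b)) = UU k l a * star (s b) := by
  have h : ∀ c, ∑ ν ∈ W l, TT k ((a * star (s b)) (S (c :: ν) xi)) * star (S (c :: ν))
      = if b = c then UU k l a * star (s b) else 0 := by
    intro c
    have h2 : ∀ ν : List Bool, (a * star (s b)) (S (c :: ν) xi) = if b = c then a (S ν xi) else 0 := by
      intro ν
      have : (a * star (s b)) (S (c :: ν) xi) = a ((star (s b) * s c) (S ν xi)) := by
        rw [S_cons]; rfl
      rw [this, star_s_mul_s]
      split_ifs with h3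
      · simp
      · simp
    split_ifs with h3
    · subst h3
      rw [UU, Finset.sum_mul]
      refine Finset.sum_congr rfl fun ν _ => ?_
      rw [h2, if_pos rfl, S_cons, star_mul, mul_assoc]
    · refine Finset.sum_eq_zero fun ν _ => ?_
      rw [h2, if_neg h3, TT_zero, zero_mul]
  rw [UU, sum_W_succ, h, h]
  cases b <;> simp

lemma UU_star_S (k l : ℕ) (β : List Bool) (a : BH) :
    UU k (β.length + l) (a * star (S β)) = UU k l a * star (S β) := by
  induction β generalizing a with
  | nil => simp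
  | cons b β ih =>
    rw [List.length_cons, show β.length + 1 + l = (β.length + l) + 1 by ring, S_cons, star_mul,
      ← mul_assoc, UU_star_s, ih, mul_assoc]

lemma UU_one (k l : ℕ) : UU k l 1 = if k = l then 1 else 0 := by
  rw [UU]
  split_ifs with h
  · subst h
    have h2 : ∀ ν ∈ W k, TT k ((1 : BH) (S ν xi)) * star (S ν) = S ν * star (S ν) := by
      intro ν hν
      have hl := length_of_mem_W hν
      subst hl
      rw [one_apply_eq_self, TT_S_xi']
    rw [Finset.sum_congr rfl h2, sum_S_star_S]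
  · refine Finset.sum_eq_zero fun ν hν => ?_
    have hl := length_of_mem_W hν
    subst hl
    rw [one_apply_eq_self, TT_S_xi ν (fun h' => h h'.symm), zero_mul]

/-- the main computation -/
lemma UU_word (k l : ℕ) (α β : List Bool) (hk : α.length ≤ k) (hl : β.length ≤ l) :
    UU k l (S α * star (S β))
      = if k + β.length = l + α.length then S α * star (S β) else 0 := by
  obtain ⟨k, rfl⟩ := Nat.exists_eq_add_of_le hk
  obtain ⟨l, rfl⟩ := Nat.exists_eq_add_of_le hl
  rw [UU_S]
  have h1 : UU k (β.length + l) (1 * star (S β)) = UU k l 1 * star (S β) := UU_star_S k l β 1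
  rw [one_mul] at h1
  rw [h1, UU_one]
  by_cases h : k = l
  · subst h
    rw [if_pos rfl, if_pos (by ring), one_mul]
  · rw [if_neg h, if_neg (by omega), zero_mul, mul_zero]

end Pool.Agent.W658.Cone
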