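import Mathlib
import Pool.Agent.W658.Cuntz
import Pool.Agent.W658.CPTools

/-!
# The Cuntz algebra and its unitised cone
-/

set_option autoImplicit false

open scoped InnerProductSpace
open Filter Topology

namespace Pool.Agent.W658.Cone

/-- the Cuntz algebra on two generators, as an algebra of operators on `ℓ²(ℕ)` -/
noncomputable def O2 : StarSubalgebra ℂ BH := (StarAlgebra.adjoin ℂ (Set.range s)).topologicalClosure

/-- the words `S_α S_β^*` -/
def wordSet : Set BH := Set.range fun p : List Bool × List Bool => S p.1 * star (S p.2)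

lemma wordSet_countable : wordSet.Countable := Set.countable_range _

lemma S_mem (μ : List Bool) : S μ ∈ StarAlgebra.adjoin ℂ (Set.range s) := by
  induction μ with
  | nil => exact one_mem _
  | cons b μ ih =>
    rw [S_cons]
    exact mul_mem (StarAlgebra.subset_adjoin _ _ ⟨b, rfl⟩) ih

lemma star_S_mul_S (α β : List Bool) : star (S α) * S β = 0 ∨ (∃ γ, star (S α) * S β = S γ) ∨
    ∃ γ, star (S α) * S β = star (S γ) := by
  induction α generalizing β with
  | nil => exact Or.inr (Or.inl ⟨β, by simp⟩)
  | cons a α ih =>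
    cases β with
    | nil => exact Or.inr (Or.inr ⟨a :: α, by simp⟩)
    | cons b β =>
      have h : star (S (a :: α)) * S (b :: β) = star (S α) * (star (s a) * s b) * S β := by
        rw [S_cons, S_cons, star_mul]
        simp only [mul_assoc]
      by_cases hab : a = b
      · subst hab
        rw [h, star_s_mul_s_self, mul_one]
        exact ih β
      · rw [h, star_s_mul_s_ne hab, mul_zero, zero_mul]
        exact Or.inl rfl

lemma word_mul {x y : BH} (hx : x ∈ wordSet) (hy : y ∈ wordSet) :
    x * y ∈ Submodule.span ℂ wordSet := by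
  obtain ⟨⟨α, β⟩, rfl⟩ := hx
  obtain ⟨⟨γ, δ⟩, rfl⟩ := hy
  have h : S α * star (S β) * (S γ * star (S δ)) = S α * (star (S β) * S γ) * star (S δ) := by
    simp only [mul_assoc]
  show S α * star (S β) * (S γ * star (S δ)) ∈ _
  rw [h]
  rcases star_S_mul_S β γ with h1 | ⟨ρ, h1⟩ | ⟨ρ, h1⟩
  · rw [h1, mul_zero, zero_mul]
    exact zero_mem _
  · rw [h1, ← S_append]
    exact Submodule.subset_span ⟨(α ++ ρ, δ), rfl⟩
  · rw [h1, mul_assoc, ← star_mul, ← S_append]
    exact Submodule.subset_span ⟨(α, δ ++ ρ), rfl⟩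

lemma adjoin_le_span {x : BH} (hx : x ∈ StarAlgebra.adjoin ℂ (Set.range s)) :
    x ∈ Submodule.span ℂ wordSet := by
  induction hx using StarAlgebra.adjoin_induction with
  | mem x hx =>
    obtain ⟨b, rfl⟩ := hx
    exact Submodule.subset_span ⟨([b], []), by simp⟩
  | algebraMap r =>
    rw [Algebra.algebraMap_eq_smul_one]
    exact Submodule.smul_mem _ _ (Submodule.subset_span ⟨([], []), by simp⟩)
  | add x y _ _ hx hy => exact add_mem hx hy
  | mul x y _ _ hx hy =>
    have h : Submodule.span ℂ wordSet * Submodule.span ℂ wordSet ≤ Submodule.span ℂ wordSet := by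
      rw [Submodule.span_mul_span, Submodule.span_le]
      rintro _ ⟨a, ha, b, hb, rfl⟩
      exact word_mul ha hb
    exact h (Submodule.mul_mem_mul hx hy)
  | star x _ hx =>
    have h : ∀ y ∈ Submodule.span ℂ wordSet, star y ∈ Submodule.span ℂ wordSet := by
      intro y hy
      induction hy using Submodule.span_induction with
      | mem x hx =>
        obtain ⟨⟨α, β⟩, rfl⟩ := hx
        refine Submodule.subset_span ⟨(β, α), ?_⟩
        simp
      | zero => rw [star_zero]; exact zero_mem _
      | add x y _ _ hx hy => rw [star_add]; exact add_mem hx hy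
      | smul a x _ hx => rw [star_smul]; exact Submodule.smul_mem _ _ hx
    exact h x hx

lemma O2_le_closure {x : BH} (hx : x ∈ O2) : x ∈ closure (Submodule.span ℂ wordSet : Set BH) := by
  have hx' : x ∈ closure (StarAlgebra.adjoin ℂ (Set.range s) : Set BH) := hx
  exact closure_mono (fun y hy => adjoin_le_span hy) hx'

lemma isClosed_O2 : IsClosed (O2 : Set BH) := StarSubalgebra.isClosed_topologicalClosure _

lemma S_mem_O2 (μ : List Bool) : S μ ∈ O2 := StarSubalgebra.le_topologicalClosure _ (S_mem μ)

lemma word_mem_O2 (α β : List Bool) : S α * star (S β) ∈ O2 :=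
  mul_mem (S_mem_O2 α) (star_mem (S_mem_O2 β))

lemma isSeparable_O2 : TopologicalSpace.IsSeparable (O2 : Set BH) := by
  refine TopologicalSpace.IsSeparable.mono ?_ (fun x hx => O2_le_closure hx)
  exact (wordSet_countable.isSeparable.span).closure

/-! ### the approximation -/

/-- the words whose length is between `n` and `2 n` -/
def V (n : ℕ) : Finset (List Bool) := (Finset.range (n + 1)).biUnion fun k => W (n + k)

lemma sum_V {M : Type} [AddCommMonoid M] (n : ℕ) (f : List Bool → M) :
    ∑ μ ∈ V n, f μ = ∑ k ∈ Finset.range (n + 1), ∑ μ ∈ W (n + k), f μ := by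
  rw [V, Finset.sum_biUnion]
  intro i _ j _ hij
  rw [Function.onFun, Finset.disjoint_left]
  intro a h1 h2
  have e1 := length_of_mem_W h1
  have e2 := length_of_mem_W h2
  apply hij
  omega

lemma V_nonempty (n : ℕ) : (V n).Nonempty := by
  refine ⟨List.replicate n true, ?_⟩
  rw [V, Finset.mem_biUnion]
  refine ⟨0, by simp, ?_⟩
  have := mem_W (List.replicate n true)
  rwa [List.length_replicate] at this

/-- an enumeration of `V n` -/
noncomputable def wd (n : ℕ) (p : Fin (V n).card) : List Bool := ((V n).equivFin.symm p : List Bool)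

lemma wd_inj (n : ℕ) : Function.Injective (wd n) := by
  intro p q h
  exact (V n).equivFin.symm.injective (Subtype.ext h)

lemma sum_wd {M : Type} [AddCommMonoid M] (n : ℕ) (f : List Bool → M) :
    ∑ p, f (wd n p) = ∑ μ ∈ V n, f μ := by
  rw [← Finset.sum_coe_sort (V n) f]
  exact Equiv.sum_comp (V n).equivFin.symm fun x : V n => f x

/-- the orthonormal vectors -/
noncomputable def vec (n : ℕ) (p : Fin (V n).card) : H := S (wd n p) xi

lemma orthonormal_vec (n : ℕ) : Orthonormal ℂ (vec n) := by
  rw [orthonormal_iff_ite]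
  intro p q
  split_ifs with h
  · subst h
    exact inner_S_self _
  · exact inner_S_S' (fun h' => h (wd_inj n h'))

/-- the averaged map -/
noncomputable def La (n : ℕ) (a : BH) : BH :=
  ((1 : ℂ) / ((n : ℂ) + 1)) • ∑ p, ∑ q, ⟪vec n p, a (vec n q)⟫_ℂ • (S (wd n p) * star (S (wd n q)))

lemma La_eq (n : ℕ) (a : BH) : La n a = ((1 : ℂ) / ((n : ℂ) + 1)) •
    ∑ k ∈ Finset.range (n + 1), ∑ l ∈ Finset.range (n + 1), UU (n + k) (n + l) a := by
  rw [La]
  congr 1
  have h1 : ∀ ν : List Bool, ∑ p, ⟪S (wd n p) xi, a (S ν xi)⟫_ℂ • (S (wd n p) * star (S ν))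
      = ∑ k ∈ Finset.range (n + 1), TT (n + k) (a (S ν xi)) * star (S ν) := by
    intro ν
    rw [sum_wd n fun μ => ⟪S μ xi, a (S ν xi)⟫_ℂ • (S μ * star (S ν)), sum_V]
    refine Finset.sum_congr rfl fun k _ => ?_
    rw [TT, Finset.sum_mul]
    refine Finset.sum_congr rfl fun μ _ => ?_
    rw [smul_mul_assoc]
  rw [Finset.sum_comm]
  calc ∑ q, ∑ p, ⟪vec n p, a (vec n q)⟫_ℂ • (S (wd n p) * star (S (wd n q)))
      = ∑ q, ∑ k ∈ Finset.range (n + 1), TT (n + k) (a (S (wd n q) xi)) * star (S (wd n q)) :=
        Finset.sum_congr rfl fun q _ => h1 (wd n q)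
    _ = ∑ ν ∈ V n, ∑ k ∈ Finset.range (n + 1), TT (n + k) (a (S ν xi)) * star (S ν) :=
        sum_wd n fun ν => ∑ k ∈ Finset.range (n + 1), TT (n + k) (a (S ν xi)) * star (S ν)
    _ = ∑ k ∈ Finset.range (n + 1), ∑ ν ∈ V n, TT (n + k) (a (S ν xi)) * star (S ν) :=
        Finset.sum_comm
    _ = _ := by
        refine Finset.sum_congr rfl fun k _ => ?_
        rw [sum_V]
        rfl

lemma La_word (n : ℕ) (α β : List Bool) (hα : α.length ≤ n) (hβ : β.length ≤ n) :
    ∃ c : ℝ, La n (S α * star (S β)) = (c : ℂ) • (S α * star (S β)) ∧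
      |c - 1| ≤ ((α.length : ℝ) + β.length) / (n + 1) := by
  rw [La_eq]
  have h1 : ∀ k ∈ Finset.range (n + 1), ∀ l ∈ Finset.range (n + 1),
      UU (n + k) (n + l) (S α * star (S β)) =
        (if k + β.length = l + α.length then (1 : ℂ) else 0) • (S α * star (S β)) := by
    intro k _ l _
    rw [UU_word _ _ _ _ (by omega) (by omega)]
    by_cases h : k + β.length = l + α.length
    · rw [if_pos h, if_pos (by omega), one_smul]
    · rw [if_neg h, if_neg (by omega), zero_smul]
  rw [Finset.sum_congr rfl fun k hk => Finset.sum_congr rfl fun l hl => h1 k hk l hl]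
  simp only [← Finset.sum_smul]
  rw [smul_smul]
  -- the number of pairs
  set N : ℝ := ∑ k ∈ Finset.range (n + 1), ∑ l ∈ Finset.range (n + 1),
    (if k + β.length = l + α.length then (1 : ℝ) else 0) with hN
  have hN1 : N ≤ n + 1 := by
    rw [hN]
    calc ∑ k ∈ Finset.range (n + 1), ∑ l ∈ Finset.range (n + 1),
          (if k + β.length = l + α.length then (1 : ℝ) else 0)
        ≤ ∑ k ∈ Finset.range (n + 1), 1 := by
          refine Finset.sum_le_sum fun k _ => ?_
          rw [← Finset.sum_filter, Finset.sum_const, nsmul_eq_mul, mul_one]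
          have : (Finset.filter (fun l => k + β.length = l + α.length)
              (Finset.range (n + 1))).card ≤ 1 := by
            rw [Finset.card_le_one]
            intro a ha b hb
            rw [Finset.mem_filter] at ha hb
            omega
          exact_mod_cast this
      _ = n + 1 := by simp
  have hN2 : (n : ℝ) + 1 - (α.length + β.length) ≤ N := by
    rw [hN]
    have h2 : ∀ k ∈ Finset.range (n + 1), (if α.length ≤ k ∧ k + β.length ≤ n then (1 : ℝ) else 0)
        ≤ ∑ l ∈ Finset.range (n + 1), (if k + β.length = l + α.length then (1 : ℝ) else 0) := by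
      intro k hk
      split_ifs with h
      · have h8 := Finset.single_le_sum (s := Finset.range (n + 1))
          (f := fun l => if k + β.length = l + α.length then (1 : ℝ) else 0)
          (fun l _ => by positivity) (show k + β.length - α.length ∈ Finset.range (n + 1) by
            rw [Finset.mem_range]; omega)
        refine le_trans (le_of_eq ?_) h8
        show (1 : ℝ) = if k + β.length = k + β.length - α.length + α.length then (1 : ℝ) else 0
        rw [if_pos (by omega)]
      · exact Finset.sum_nonneg fun l _ => by positivity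
    refine le_trans ?_ (Finset.sum_le_sum h2)
    rw [← Finset.sum_filter, Finset.sum_const, nsmul_eq_mul, mul_one]
    have h3 : Finset.Ico α.length (n + 1 - β.length) ⊆
        Finset.filter (fun k => α.length ≤ k ∧ k + β.length ≤ n) (Finset.range (n + 1)) := by
      intro k hk
      rw [Finset.mem_Ico] at hk
      rw [Finset.mem_filter, Finset.mem_range]
      omega
    have h4 := Finset.card_le_card h3
    rw [Nat.card_Ico] at h4
    have h5 : n + 1 ≤ (Finset.filter (fun k => α.length ≤ k ∧ k + β.length ≤ n)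
        (Finset.range (n + 1))).card + (α.length + β.length) := by omega
    have h6 : ((n : ℝ) + 1) ≤ ((Finset.filter (fun k => α.length ≤ k ∧ k + β.length ≤ n)
        (Finset.range (n + 1))).card : ℝ) + (α.length + β.length) := by exact_mod_cast h5
    linarith
  refine ⟨N / (n + 1), ?_, ?_⟩
  · congr 1
    rw [hN]
    push_cast
    rw [one_div, inv_mul_eq_div]
    congr 1
    refine Finset.sum_congr rfl fun k _ => Finset.sum_congr rfl fun l _ => ?_
    split_ifs <;> simp
  · have hpos : (0 : ℝ) < n + 1 := by positivity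
    rw [abs_le]
    constructor
    · rw [neg_le_iff_add_nonneg, ← sub_nonneg]
      have : 0 ≤ (N - (n + 1) + (α.length + β.length)) / ((n : ℝ) + 1) := by
        apply div_nonneg _ hpos.le
        linarith
      calc (0 : ℝ) ≤ _ := this
        _ = _ := by field_simp; ring
    · have h7 : N / (n + 1) ≤ 1 := by rw [div_le_one hpos]; exact hN1
      have : 0 ≤ ((α.length : ℝ) + β.length) / (n + 1) := by positivity
      linarith

lemma sum_V_S (n : ℕ) : ∑ μ ∈ V n, S μ * star (S μ) = ((n : ℂ) + 1) • (1 : BH) := by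
  rw [sum_V]
  simp only [sum_S_star_S]
  rw [Finset.sum_const, Finset.card_range, ← Nat.cast_smul_eq_nsmul ℂ]
  push_cast
  rfl

/-- the normalisation constant -/
noncomputable def nc (n : ℕ) : ℂ := ((Real.sqrt ((n : ℝ) + 1))⁻¹ : ℝ)

lemma nc_mul (n : ℕ) : nc n * star (nc n) = (1 : ℂ) / ((n : ℂ) + 1) := by
  have hpos : (0 : ℝ) < n + 1 := by positivity
  rw [nc, RCLike.star_def, Complex.conj_ofReal, ← Complex.ofReal_mul, ← mul_inv,
    Real.mul_self_sqrt hpos.le]
  push_cast
  rw [one_div]

lemma La_sub (n : ℕ) (a b : BH) : La n (a - b) = La n a - La n b := by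
  simp only [La, sub_apply, inner_sub_right, sub_smul, Finset.sum_sub_distrib, smul_sub]

lemma La_add (n : ℕ) (a b : BH) : La n (a + b) = La n a + La n b := by
  simp only [La, add_apply, inner_add_right, add_smul, Finset.sum_add_distrib, smul_add]

lemma La_smul (n : ℕ) (c : ℂ) (a : BH) : La n (c • a) = c • La n a := by
  simp only [La, smul_apply, inner_smul_right, mul_smul, ← Finset.smul_sum]
  rw [smul_comm]

lemma La_norm_le (n : ℕ) (a : BH) : ‖La n a‖ ≤ ‖a‖ := by
  let r : Fin 1 → Fin (V n).card → BH := fun _ p => nc n • S (wd n p)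
  have h1 : La n a = kraus r (compr (NonUnitalStarAlgHom.id ℂ BH) (vec n) a) := by
    rw [kraus_apply, La, Finset.smul_sum]
    simp only [Finset.univ_unique, Finset.sum_singleton, compr_apply]
    refine Finset.sum_congr rfl fun p _ => ?_
    rw [Finset.smul_sum]
    refine Finset.sum_congr rfl fun q _ => ?_
    show _ = ⟪vec n p, a (vec n q)⟫_ℂ • ((nc n • S (wd n p)) * star (nc n • S (wd n q)))
    rw [star_smul, smul_mul_smul_comm, nc_mul, smul_comm]
  rw [h1]
  refine (norm_kraus_le r ?_ _).trans (norm_compr_le _ (orthonormal_vec n) a)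
  have h2 : ∑ i : Fin 1, ∑ p, r i p * star (r i p) = 1 := by
    simp only [Finset.univ_unique, Finset.sum_singleton]
    calc ∑ p, (nc n • S (wd n p)) * star (nc n • S (wd n p))
        = ∑ p, ((1 : ℂ) / ((n : ℂ) + 1)) • (S (wd n p) * star (S (wd n p))) := by
          refine Finset.sum_congr rfl fun p _ => ?_
          rw [star_smul, smul_mul_smul_comm, nc_mul]
      _ = ((1 : ℂ) / ((n : ℂ) + 1)) • ∑ p, (S (wd n p) * star (S (wd n p))) := by
          rw [Finset.smul_sum]
      _ = 1 := by
          rw [sum_wd n fun μ => S μ * star (S μ), sum_V_S, smul_smul, one_div,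
            inv_mul_cancel₀ (Nat.cast_add_one_ne_zero n), one_smul]
  rw [h2]
  exact ContinuousLinearMap.norm_id_le

lemma La_tendsto_word (α β : List Bool) :
    Tendsto (fun n => La n (S α * star (S β))) atTop (𝓝 (S α * star (S β))) := by
  rw [tendsto_iff_norm_sub_tendsto_zero]
  have h1 : Tendsto (fun n : ℕ => ((α.length : ℝ) + β.length) / ((n : ℝ) + 1) * ‖S α * star (S β)‖)
      atTop (𝓝 0) := by
    have : Tendsto (fun n : ℕ => ((α.length : ℝ) + β.length) / ((n : ℝ) + 1)) atTop (𝓝 0) := by
      have h2 := (tendsto_one_div_add_atTop_nhds_zero_nat (𝕜 := ℝ)).const_mul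
        ((α.length : ℝ) + β.length)
      rw [mul_zero] at h2
      refine h2.congr fun n => ?_
      rw [mul_one_div]
    simpa using this.mul_const ‖S α * star (S β)‖
  refine squeeze_zero' (Eventually.of_forall fun n => norm_nonneg _) ?_ h1
  filter_upwards [eventually_ge_atTop (α.length + β.length)] with n hn
  obtain ⟨c, hc1, hc2⟩ := La_word n α β (by omega) (by omega)
  rw [hc1]
  have : (c : ℂ) • (S α * star (S β)) - S α * star (S β) = ((c - 1 : ℝ) : ℂ) • (S α * star (S β)) := by
    push_cast
    rw [sub_smul, one_smul]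
  rw [this, norm_smul, Complex.norm_real, Real.norm_eq_abs]
  exact mul_le_mul_of_nonneg_right hc2 (norm_nonneg _)

lemma La_tendsto {a : BH} (ha : a ∈ O2) : Tendsto (fun n => La n a) atTop (𝓝 a) := by
  have hspan : ∀ x ∈ Submodule.span ℂ wordSet, Tendsto (fun n => La n x) atTop (𝓝 x) := by
    intro x hx
    induction hx using Submodule.span_induction with
    | mem x hx =>
      obtain ⟨⟨α, β⟩, rfl⟩ := hx
      exact La_tendsto_word α β
    | zero =>
      have : ∀ n, La n 0 = 0 := fun n => by simpa using La_smul n 0 0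
      simp only [this]
      exact tendsto_const_nhds
    | add x y _ _ hx hy =>
      simp only [La_add]
      exact hx.add hy
    | smul c x _ hx =>
      simp only [La_smul]
      exact hx.const_smul c
  have hcl := O2_le_closure ha
  rw [Metric.tendsto_atTop]
  intro ε hε
  rw [Metric.mem_closure_iff] at hcl
  obtain ⟨x, hx, hax⟩ := hcl (ε / 3) (by positivity)
  obtain ⟨N, hN⟩ := (Metric.tendsto_atTop.1 (hspan x hx)) (ε / 3) (by positivity)
  refine ⟨N, fun n hn => ?_⟩
  have h1 := hN n hn
  rw [dist_eq_norm] at *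
  calc ‖La n a - a‖ = ‖La n (a - x) + (La n x - x) + (x - a)‖ := by
        rw [La_sub]; congr 1; abel
    _ ≤ ‖La n (a - x)‖ + ‖La n x - x‖ + ‖x - a‖ := norm_add₃_le
    _ ≤ ‖a - x‖ + ‖La n x - x‖ + ‖x - a‖ := by gcongr; exact La_norm_le n _
    _ < ε / 3 + ε / 3 + ε / 3 := by
        rw [norm_sub_rev x a]
        gcongr
    _ = ε := by ring

end Pool.Agent.W658.Cone
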