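import Mathlib

/-!
# Nuclear, stably finite and type I C*-algebras; local approximation by type I subalgebras
-/

set_option autoImplicit false

open scoped CStarAlgebra ComplexOrder

namespace Pool.Agent.W658.TypeI

/-- A C*-algebra is nuclear: the identity is a point-norm limit of compositions
`A → Mₙ(ℂ) → A` of completely positive contractions. -/
def IsNuclear (A : Type) [CStarAlgebra A] [PartialOrder A] [StarOrderedRing A] : Prop :=
  ∀ (F : Finset A) (ε : ℝ), 0 < ε → ∃ (n : ℕ) (φ : A →CP CStarMatrix (Fin n) (Fin n) ℂ)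
    (ψ : CStarMatrix (Fin n) (Fin n) ℂ →CP A),
    (∀ x, ‖φ x‖ ≤ ‖x‖) ∧ (∀ y, ‖ψ y‖ ≤ ‖y‖) ∧ ∀ x ∈ F, ‖ψ (φ x) - x‖ < ε

/-- A unital C*-algebra is stably finite: every isometry in a matrix algebra over it is unitary. -/
def IsStablyFinite (A : Type) [CStarAlgebra A] : Prop :=
  ∀ (n : ℕ) (v : Matrix (Fin n) (Fin n) A), star v * v = 1 → v * star v = 1

/-- A representation of a *-algebra on a Hilbert space is irreducible: it is non-zero and has no
closed invariant subspaces except `0` and the whole space. -/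
def IsIrreducible {B K : Type} [NonUnitalRing B] [StarRing B] [Module ℂ B]
    [NormedAddCommGroup K] [InnerProductSpace ℂ K] [CompleteSpace K]
    (π : B →⋆ₙₐ[ℂ] (K →L[ℂ] K)) : Prop :=
  π ≠ 0 ∧ ∀ U : Submodule ℂ K, IsClosed (U : Set K) → (∀ b, ∀ x ∈ U, π b x ∈ U) → U = ⊥ ∨ U = ⊤

/-- A C*-algebra is of type I: the image of every irreducible representation contains all compact
operators. -/
def IsTypeI (B : Type) [NonUnitalRing B] [StarRing B] [Module ℂ B] : Prop :=
  ∀ (K : Type) [NormedAddCommGroup K] [InnerProductSpace ℂ K] [CompleteSpace K]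
    (π : B →⋆ₙₐ[ℂ] (K →L[ℂ] K)), IsIrreducible π →
    ∀ T : K →L[ℂ] K, IsCompactOperator T → ∃ b, π b = T

/-- `A` is locally approximable by type I C*-algebras: for every finite subset `F` of `A` and
every `ε > 0` there is a C*-subalgebra `B` (a norm closed *-subalgebra, with or without unit) of
type I such that every element of `F` has distance less than `ε` from `B`. -/
def LocallyTypeI (A : Type) [CStarAlgebra A] : Prop :=
  ∀ (F : Finset A) (ε : ℝ), 0 < ε → ∃ B : NonUnitalStarSubalgebra ℂ A,
    IsClosed (B : Set A) ∧ IsTypeI B ∧ ∀ x ∈ F, ∃ y ∈ B, ‖x - y‖ < ε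

end Pool.Agent.W658.TypeI
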