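import Mathlib
import Pool.Agent.W658.ConeDefs
import Pool.Agent.W658.TIDefs

/-!
# The unitised cone over the Cuntz algebra: nuclearity
-/

set_option autoImplicit false

open scoped InnerProductSpace CStarAlgebra ComplexOrder
open Filter Topology

namespace Pool.Agent.W658.Cone

/-- the algebra of continuous operator valued functions -/
abbrev CB : Type := C(unitInterval, BH)

noncomputable instance : CStarAlgebra BH := inferInstance
noncomputable instance : CStarAlgebra CB := inferInstance
noncomputable instance : Ring CB := inferInstance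
noncomputable instance : Algebra ℂ CB := inferInstance
noncomputable instance : StarRing CB := inferInstance

/-- the continuous functions `f` on `[0, 1]` with values in the Cuntz algebra and with `f 0`
scalar -/
noncomputable def coneU : StarSubalgebra ℂ CB where
  carrier := {f | (∀ t, f t ∈ O2) ∧ ∃ c : ℂ, f 0 = c • (1 : BH)}
  mul_mem' := by
    rintro f g ⟨hf, c, hc⟩ ⟨hg, d, hd⟩
    refine ⟨fun t => mul_mem (hf t) (hg t), c * d, ?_⟩
    rw [ContinuousMap.mul_apply, hc, hd, smul_mul_smul_comm, mul_one]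
  add_mem' := by
    rintro f g ⟨hf, c, hc⟩ ⟨hg, d, hd⟩
    refine ⟨fun t => add_mem (hf t) (hg t), c + d, ?_⟩
    rw [ContinuousMap.add_apply, hc, hd, add_smul]
  algebraMap_mem' := by
    intro c
    refine ⟨fun t => ?_, c, ?_⟩
    · exact O2.algebraMap_mem c
    · rw [← Algebra.algebraMap_eq_smul_one]
      rfl
  star_mem' := by
    rintro f ⟨hf, c, hc⟩
    refine ⟨fun t => star_mem (hf t), star c, ?_⟩
    rw [ContinuousMap.star_apply, hc, star_smul, star_one]

lemma isClosed_scalars : IsClosed {x : BH | ∃ c : ℂ, x = c • (1 : BH)} := by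
  have h : {x : BH | ∃ c : ℂ, x = c • (1 : BH)} = (Submodule.span ℂ {(1 : BH)} : Set BH) := by
    ext x
    rw [Set.mem_ofPred_eq, SetLike.mem_coe, Submodule.mem_span_singleton]
    exact ⟨fun ⟨c, h⟩ => ⟨c, h.symm⟩, fun ⟨c, h⟩ => ⟨c, h.symm⟩⟩
  rw [h]
  exact Submodule.closed_of_finiteDimensional _

lemma isClosed_coneU : IsClosed (coneU : Set CB) := by
  have h : (coneU : Set CB) = (⋂ t, {f | f t ∈ (O2 : Set BH)}) ∩
      {f | f 0 ∈ {x : BH | ∃ c : ℂ, x = c • (1 : BH)}} := by
    ext f
    simp only [Set.mem_inter_iff, Set.mem_iInter, Set.mem_ofPred_eq]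
    exact Iff.rfl
  rw [h]
  refine IsClosed.inter (isClosed_iInter fun t => ?_) ?_
  · exact isClosed_O2.preimage (continuous_eval_const t)
  · exact isClosed_scalars.preimage (continuous_eval_const _)

/-- the counterexample: the algebra of continuous functions on `[0, 1]` with values in the Cuntz
algebra that are scalar at `0` -/
abbrev CA : Type := coneU

noncomputable instance : CStarAlgebra CA := StarSubalgebra.cstarAlgebra coneU (h_closed := isClosed_coneU)

noncomputable instance : PartialOrder CA := CStarAlgebra.spectralOrder CA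

noncomputable instance : StarOrderedRing CA := CStarAlgebra.spectralOrderedRing CA

lemma separable_CA : TopologicalSpace.SeparableSpace CA := by
  have h1 : TopologicalSpace.SeparableSpace O2 := isSeparable_O2.separableSpace
  have h2 : SecondCountableTopology O2 := UniformSpace.secondCountable_of_separable O2
  have h3 : SecondCountableTopology C(unitInterval, O2) := inferInstance
  have h4 : TopologicalSpace.IsSeparable (Set.range
      (ContinuousMap.comp (⟨Subtype.val, continuous_subtype_val⟩ : C(O2, BH)) :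
        C(unitInterval, O2) → C(unitInterval, BH))) :=
    TopologicalSpace.isSeparable_range (ContinuousMap.continuous_postcomp _)
  have h5 : TopologicalSpace.IsSeparable (coneU : Set CB) := by
    refine h4.mono ?_
    rintro f ⟨hf, _⟩
    refine ⟨⟨fun t => ⟨f t, hf t⟩, by fun_prop⟩, ?_⟩
    ext t
    rfl
  exact h5.separableSpace

/-! ### finite direct sums of representations -/

section dsum

variable {A : Type} [NonUnitalCStarAlgebra A]
variable {K : Type} [NormedAddCommGroup K] [InnerProductSpace ℂ K] [CompleteSpace K]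

/-- the diagonal operator on a finite direct sum -/
noncomputable def diagOp {m : ℕ} (T : Fin m → (K →L[ℂ] K)) :
    PiLp 2 (fun _ : Fin m => K) →L[ℂ] PiLp 2 (fun _ : Fin m => K) :=
  ((PiLp.continuousLinearEquiv 2 ℂ (fun _ : Fin m => K)).symm : _ →L[ℂ] _) ∘L
    (ContinuousLinearMap.pi fun i => (T i) ∘L (ContinuousLinearMap.proj i)) ∘L
    ((PiLp.continuousLinearEquiv 2 ℂ (fun _ : Fin m => K)) : _ →L[ℂ] _)

omit [CompleteSpace K] in
lemma diagOp_apply {m : ℕ} (T : Fin m → (K →L[ℂ] K)) (x : PiLp 2 (fun _ : Fin m => K)) (i : Fin m) :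
    diagOp T x i = T i (x i) := rfl

omit [CompleteSpace K] in
lemma diagOp_ext {m : ℕ} {S T : PiLp 2 (fun _ : Fin m => K) →L[ℂ] PiLp 2 (fun _ : Fin m => K)}
    (h : ∀ x i, S x i = T x i) : S = T := by
  ext x i
  exact h x i

/-- the direct sum of finitely many representations -/
noncomputable def dsum {m : ℕ} (π : Fin m → (A →⋆ₙₐ[ℂ] (K →L[ℂ] K))) :
    A →⋆ₙₐ[ℂ] (PiLp 2 (fun _ : Fin m => K) →L[ℂ] PiLp 2 (fun _ : Fin m => K)) where
  toFun a := diagOp fun i => π i a
  map_smul' c a := by
    refine diagOp_ext fun x i => ?_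
    rw [diagOp_apply, map_smul]
    rfl
  map_zero' := by
    refine diagOp_ext fun x i => ?_
    rw [diagOp_apply, map_zero]
    rfl
  map_add' a b := by
    refine diagOp_ext fun x i => ?_
    rw [diagOp_apply, map_add]
    rfl
  map_mul' a b := by
    refine diagOp_ext fun x i => ?_
    rw [diagOp_apply, map_mul]
    rfl
  map_star' a := by
    rw [ContinuousLinearMap.star_eq_adjoint, ContinuousLinearMap.eq_adjoint_iff]
    intro x y
    rw [PiLp.inner_apply, PiLp.inner_apply]
    refine Finset.sum_congr rfl fun i _ => ?_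
    rw [diagOp_apply, diagOp_apply, map_star, ContinuousLinearMap.star_eq_adjoint,
      ContinuousLinearMap.adjoint_inner_left]

lemma dsum_apply {m : ℕ} (π : Fin m → (A →⋆ₙₐ[ℂ] (K →L[ℂ] K))) (a : A)
    (x : PiLp 2 (fun _ : Fin m => K)) (i : Fin m) : dsum π a x i = π i a (x i) := rfl

/-- the vectors `v p` in the `i`-th summand -/
noncomputable def dvec {m N : ℕ} (v : Fin N → K) (x : Fin (m * N)) : PiLp 2 (fun _ : Fin m => K) :=
  PiLp.single 2 (finProdFinEquiv.symm x).1 (v (finProdFinEquiv.symm x).2)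

omit [CompleteSpace K] in
lemma inner_single {m : ℕ} (i : Fin m) (u : K) (z : PiLp 2 (fun _ : Fin m => K)) :
    ⟪(PiLp.single 2 i u : PiLp 2 (fun _ : Fin m => K)), z⟫_ℂ = ⟪u, z i⟫_ℂ := by
  rw [PiLp.inner_apply, Finset.sum_eq_single i]
  · rw [PiLp.single_eq_same]
  · intro j _ hj
    rw [PiLp.single_eq_of_ne (p := 2) hj, inner_zero_left]
  · intro h
    exact absurd (Finset.mem_univ _) h

omit [CompleteSpace K] [InnerProductSpace ℂ K] in
lemma dvec_apply {m N : ℕ} (v : Fin N → K) (x : Fin (m * N)) (i : Fin m) :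
    dvec v x i = if i = (finProdFinEquiv.symm x).1 then v (finProdFinEquiv.symm x).2 else 0 := by
  rw [dvec]
  split_ifs with h
  · subst h
    rw [PiLp.single_eq_same]
  · rw [PiLp.single_eq_of_ne (p := 2) h]

lemma compr_dsum {m N : ℕ} (π : Fin m → (A →⋆ₙₐ[ℂ] (K →L[ℂ] K))) (v : Fin N → K) (a : A)
    [PartialOrder A] [StarOrderedRing A] (i j : Fin m) (p q : Fin N) :
    compr (dsum π) (dvec v) a (finProdFinEquiv (i, p)) (finProdFinEquiv (j, q))
      = if i = j then ⟪v p, π i a (v q)⟫_ℂ else 0 := by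
  rw [compr_apply]
  have h : dvec (m := m) v (finProdFinEquiv (i, p)) = PiLp.single 2 i (v p) := by
    rw [dvec, Equiv.symm_apply_apply]
  rw [h, inner_single, dsum_apply, dvec_apply, Equiv.symm_apply_apply]
  split_ifs with h2
  · rfl
  · rw [map_zero, inner_zero_right]

omit [CompleteSpace K] in
lemma orthonormal_dvec {m N : ℕ} {v : Fin N → K} (hv : Orthonormal ℂ v) :
    Orthonormal ℂ (dvec (m := m) v) := by
  rw [orthonormal_iff_ite]
  intro x y
  rw [dvec, inner_single, dvec_apply]
  have hv' := orthonormal_iff_ite.1 hv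
  by_cases hxy : x = y
  · subst hxy
    rw [if_pos rfl, if_pos rfl, hv', if_pos rfl]
  · rw [if_neg hxy]
    split_ifs with h
    · rw [hv', if_neg]
      intro h2
      apply hxy
      apply finProdFinEquiv.symm.injective
      exact Prod.ext h h2
    · rw [inner_zero_right]

end dsum

/-! ### hat functions -/

/-- the function `t ↦ min 1 (max 0 (m t - j))` -/
noncomputable def ramp (m j : ℕ) : C(unitInterval, ℝ) :=
  ⟨fun t => min 1 (max 0 ((m : ℝ) * t - j)), by fun_prop⟩

lemma ramp_apply (m j : ℕ) (t : unitInterval) : ramp m j t = min 1 (max 0 ((m : ℝ) * t - j)) := rfl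

lemma ramp_anti (m j : ℕ) (t : unitInterval) : ramp m (j + 1) t ≤ ramp m j t := by
  rw [ramp_apply, ramp_apply]
  push_cast
  gcongr
  linarith

lemma ramp_le_one (m j : ℕ) (t : unitInterval) : ramp m j t ≤ 1 := min_le_left _ _

lemma ramp_nonneg (m j : ℕ) (t : unitInterval) : 0 ≤ ramp m j t :=
  le_min zero_le_one (le_max_left _ _)

/-- the hat functions at the points `i / m` -/
noncomputable def hat (m : ℕ) : ℕ → C(unitInterval, ℝ)
  | 0 => 1 - ramp m 0
  | i + 1 => ramp m i - ramp m (i + 1)

lemma hat_nonneg (m i : ℕ) (t : unitInterval) : 0 ≤ hat m i t := by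
  cases i with
  | zero =>
    show 0 ≤ 1 - ramp m 0 t
    linarith [ramp_le_one m 0 t]
  | succ i =>
    show 0 ≤ ramp m i t - ramp m (i + 1) t
    linarith [ramp_anti m i t]

lemma hat_sum' (m k : ℕ) (t : unitInterval) :
    ∑ i ∈ Finset.range (k + 1), hat m i t = 1 - ramp m k t := by
  induction k with
  | zero => simp [hat]
  | succ k ih =>
    rw [Finset.sum_range_succ, ih]
    show 1 - ramp m k t + (ramp m k t - ramp m (k + 1) t) = _
    ring

lemma hat_sum (m : ℕ) (t : unitInterval) : ∑ i ∈ Finset.range (m + 1), hat m i t = 1 := by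
  rw [hat_sum', ramp_apply]
  have h1 : (m : ℝ) * t - m ≤ 0 := by
    have := t.2.2
    have h2 : (0 : ℝ) ≤ m := Nat.cast_nonneg _
    nlinarith
  rw [max_eq_left h1]
  simp

lemma hat_zero (m i : ℕ) : hat m (i + 1) 0 = 0 := by
  show ramp m i 0 - ramp m (i + 1) 0 = 0
  rw [ramp_apply, ramp_apply]
  have h1 : (m : ℝ) * ((0 : unitInterval) : ℝ) - (i : ℝ) ≤ 0 := by
    simp
  have h2 : (m : ℝ) * ((0 : unitInterval) : ℝ) - ((i + 1 : ℕ) : ℝ) ≤ 0 := by
    have : (0 : ℝ) ≤ i := Nat.cast_nonneg i
    rw [show ((0 : unitInterval) : ℝ) = 0 from rfl]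
    push_cast
    linarith
  rw [max_eq_left h1, max_eq_left h2]
  simp

lemma hat_zero_zero (m : ℕ) : hat m 0 0 = 1 := by
  show 1 - ramp m 0 0 = 1
  rw [ramp_apply]
  simp

lemma hat_support (m i : ℕ) (t : unitInterval) (h : hat m i t ≠ 0) : |(m : ℝ) * t - i| < 1 := by
  cases i with
  | zero =>
    have h2 : 1 - ramp m 0 t ≠ 0 := h
    rw [ramp_apply] at h2
    have h0 : 0 ≤ (m : ℝ) * t := mul_nonneg (Nat.cast_nonneg _) t.2.1
    rw [abs_lt]
    push_cast
    refine ⟨by linarith, ?_⟩
    by_contra h3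
    push Not at h3
    apply h2
    rw [max_eq_right (by push_cast; linarith), min_eq_left (by push_cast; linarith)]
    ring
  | succ i =>
    have h2 : ramp m i t - ramp m (i + 1) t ≠ 0 := h
    rw [ramp_apply, ramp_apply] at h2
    rw [abs_lt]
    push_cast
    constructor
    · by_contra h3
      push Not at h3
      apply h2
      rw [max_eq_left (by linarith), max_eq_left (by push_cast; linarith)]
      ring
    · by_contra h3
      push Not at h3
      apply h2
      rw [max_eq_right (by linarith), max_eq_right (by push_cast; linarith),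
        min_eq_left (by linarith), min_eq_left (by push_cast; linarith)]
      ring

/-! ### the approximation maps -/

/-- evaluation at `t` -/
noncomputable def ev (t : unitInterval) : CA →⋆ₙₐ[ℂ] BH where
  toFun f := (f : CB) t
  map_smul' _ _ := rfl
  map_zero' := rfl
  map_add' _ _ := rfl
  map_mul' _ _ := rfl
  map_star' _ := rfl

lemma ev_apply (t : unitInterval) (f : CA) : ev t f = (f : CB) t := rfl

lemma CA_ext {f g : CA} (h : ∀ t, ev t f = ev t g) : f = g := by
  apply Subtype.ext
  ext1 t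
  exact h t

lemma norm_le_of_ev {f : CA} {c : ℝ} (hc : 0 ≤ c) (h : ∀ t, ‖ev t f‖ ≤ c) : ‖f‖ ≤ c := by
  show ‖(f : CB)‖ ≤ c
  rw [ContinuousMap.norm_le _ hc]
  exact h

/-- the function `t ↦ g t • a` -/
noncomputable def el (g : C(unitInterval, ℝ)) (a : BH) : CB :=
  ⟨fun t => ((g t : ℝ) : ℂ) • a, by fun_prop⟩

lemma el_mem {g : C(unitInterval, ℝ)} {a : BH} (ha : a ∈ O2) (hg : g 0 = 0) : el g a ∈ coneU := by
  refine ⟨fun _ => SMulMemClass.smul_mem _ ha, 0, ?_⟩
  show ((g 0 : ℝ) : ℂ) • a = _
  rw [hg]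
  simp

lemma el_mem' (g : C(unitInterval, ℝ)) : el g 1 ∈ coneU :=
  ⟨fun _ => SMulMemClass.smul_mem _ (one_mem _), _, rfl⟩

/-- the square root of a hat function -/
noncomputable def rh (m i : ℕ) : C(unitInterval, ℝ) := ⟨fun t => Real.sqrt (hat m i t), by fun_prop⟩

lemma rh_zero {m i : ℕ} (h : i ≠ 0) : rh m i 0 = 0 := by
  obtain ⟨j, rfl⟩ := Nat.exists_eq_succ_of_ne_zero h
  show Real.sqrt (hat m (j + 1) 0) = 0
  rw [hat_zero, Real.sqrt_zero]

lemma rh_mul (m i : ℕ) (t : unitInterval) : rh m i t * rh m i t = hat m i t :=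
  Real.mul_self_sqrt (hat_nonneg m i t)

/-- some index -/
noncomputable def p0 (n : ℕ) : Fin (V n).card := ⟨0, Finset.card_pos.2 (V_nonempty n)⟩

open Classical in
/-- the Kraus coefficients -/
noncomputable def rr (m n : ℕ) (i : Fin (m + 1)) (p : Fin (V n).card) : CA :=
  if h : (i : ℕ) = 0 then (if p = p0 n then ⟨el (rh m 0) 1, el_mem' _⟩ else 0)
  else ⟨el (rh m i) (nc n • S (wd n p)), el_mem (SMulMemClass.smul_mem _ (S_mem_O2 _)) (rh_zero h)⟩

lemma ev_rr_mul (m n : ℕ) (i : Fin (m + 1)) (p q : Fin (V n).card) (t : unitInterval) :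
    ev t (rr m n i p * star (rr m n i q)) = ((hat m i t : ℝ) : ℂ) •
      (if (i : ℕ) = 0 then (if p = p0 n ∧ q = p0 n then (1 : BH) else 0)
        else ((1 : ℂ) / ((n : ℂ) + 1)) • (S (wd n p) * star (S (wd n q)))) := by
  rw [map_mul, map_star]
  by_cases h : (i : ℕ) = 0
  · rw [rr, dif_pos h, rr, dif_pos h, if_pos h]
    by_cases hp : p = p0 n
    · by_cases hq : q = p0 n
      · rw [if_pos hp, if_pos hq, if_pos ⟨hp, hq⟩]
        show (((rh m 0 t : ℝ) : ℂ) • (1 : BH)) * star (((rh m 0 t : ℝ) : ℂ) • (1 : BH)) = _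
        rw [star_smul, smul_mul_smul_comm, RCLike.star_def, Complex.conj_ofReal, star_one, mul_one,
          ← Complex.ofReal_mul, rh_mul, h]
      · rw [if_neg hq, if_neg (show ¬(p = p0 n ∧ q = p0 n) from fun h => hq h.2), map_zero,
          star_zero, mul_zero, smul_zero]
    · rw [if_neg hp, if_neg (show ¬(p = p0 n ∧ q = p0 n) from fun h => hp h.1), map_zero, zero_mul,
        smul_zero]
  · rw [rr, dif_neg h, rr, dif_neg h, if_neg h]
    show (((rh m i t : ℝ) : ℂ) • (nc n • S (wd n p))) * star (((rh m i t : ℝ) : ℂ) • (nc n • S (wd n q))) = _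
    rw [star_smul, star_smul, smul_mul_smul_comm, smul_mul_smul_comm, RCLike.star_def,
      Complex.conj_ofReal, ← RCLike.star_def, nc_mul, ← Complex.ofReal_mul, rh_mul]

/-- the Kraus coefficients, with block structure -/
noncomputable def rK (m n : ℕ) (i : Fin (m + 1)) (x : Fin ((m + 1) * (V n).card)) : CA :=
  if (finProdFinEquiv.symm x).1 = i then rr m n i (finProdFinEquiv.symm x).2 else 0

lemma rK_apply (m n : ℕ) (i j : Fin (m + 1)) (p : Fin (V n).card) :
    rK m n i (finProdFinEquiv (j, p)) = if j = i then rr m n i p else 0 := by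
  rw [rK, Equiv.symm_apply_apply]

lemma sum_fin_mul {M : Type} [AddCommMonoid M] {a b : ℕ} (f : Fin (a * b) → M) :
    ∑ x, f x = ∑ i : Fin a, ∑ p : Fin b, f (finProdFinEquiv (i, p)) := by
  rw [← Equiv.sum_comp finProdFinEquiv f, Fintype.sum_prod_type]

lemma kraus_rK (m n : ℕ) (Y : CStarMatrix (Fin ((m + 1) * (V n).card)) (Fin ((m + 1) * (V n).card)) ℂ) :
    kraus (rK m n) Y = ∑ i, ∑ p, ∑ q, Y (finProdFinEquiv (i, p)) (finProdFinEquiv (i, q)) •
      (rr m n i p * star (rr m n i q)) := by
  rw [kraus_apply]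
  refine Finset.sum_congr rfl fun i _ => ?_
  rw [sum_fin_mul, Finset.sum_eq_single i]
  · refine Finset.sum_congr rfl fun p _ => ?_
    rw [sum_fin_mul, Finset.sum_eq_single i]
    · refine Finset.sum_congr rfl fun q _ => ?_
      rw [rK_apply, rK_apply, if_pos rfl, if_pos rfl]
    · intro j _ hj
      refine Finset.sum_eq_zero fun q _ => ?_
      rw [rK_apply m n i j q, if_neg hj, star_zero, mul_zero, smul_zero]
    · intro h
      exact absurd (Finset.mem_univ _) h
  · intro j _ hj
    refine Finset.sum_eq_zero fun p _ => Finset.sum_eq_zero fun y _ => ?_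
    rw [rK_apply m n i j p, if_neg hj, zero_mul, smul_zero]
  · intro h
    exact absurd (Finset.mem_univ _) h

lemma sum_rK (m n : ℕ) : ∑ i, ∑ x, rK m n i x * star (rK m n i x) = 1 := by
  refine CA_ext fun t => ?_
  have h1 : ∀ i : Fin (m + 1), ∑ x, rK m n i x * star (rK m n i x)
      = ∑ p, rr m n i p * star (rr m n i p) := by
    intro i
    rw [sum_fin_mul, Finset.sum_eq_single i]
    · refine Finset.sum_congr rfl fun p _ => ?_
      rw [rK_apply, if_pos rfl]
    · intro j _ hj
      refine Finset.sum_eq_zero fun q _ => ?_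
      rw [rK_apply m n i j q, if_neg hj, zero_mul]
    · intro h
      exact absurd (Finset.mem_univ _) h
  have h2 : ∀ i : Fin (m + 1), ev t (∑ p, rr m n i p * star (rr m n i p))
      = ((hat m i t : ℝ) : ℂ) • (1 : BH) := by
    intro i
    rw [map_sum]
    simp only [ev_rr_mul]
    rw [← Finset.smul_sum]
    congr 1
    by_cases h : (i : ℕ) = 0
    · simp only [if_pos h, and_self]
      rw [Finset.sum_ite_eq' Finset.univ (p0 n) fun _ => (1 : BH)]
      simp
    · simp only [if_neg h]
      rw [← Finset.smul_sum, sum_wd n fun μ => S μ * star (S μ), sum_V_S, smul_smul, one_div,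
        inv_mul_cancel₀ (Nat.cast_add_one_ne_zero n), one_smul]
  simp only [h1]
  rw [map_sum]
  simp only [h2]
  rw [← Finset.sum_smul, ← Complex.ofReal_sum, ← Finset.sum_range fun i => hat m i t, hat_sum]
  show ((1 : ℝ) : ℂ) • (1 : BH) = 1
  rw [Complex.ofReal_one, one_smul]

/-- the sampling points -/
noncomputable def pt (m : ℕ) (i : Fin (m + 1)) : unitInterval :=
  ⟨(i : ℝ) / m, by positivity, by
    have h := i.2
    have h2 : (i : ℝ) ≤ m := by exact_mod_cast Nat.lt_succ_iff.1 h
    exact div_le_one_of_le₀ h2 (Nat.cast_nonneg m)⟩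

lemma pt_coe (m : ℕ) (i : Fin (m + 1)) : ((pt m i : unitInterval) : ℝ) = (i : ℝ) / m := rfl

lemma pt_zero (m : ℕ) (i : Fin (m + 1)) (h : (i : ℕ) = 0) : pt m i = 0 := by
  apply Subtype.ext
  rw [pt_coe, h]
  simp

/-- the composition of the two maps -/
lemma approx_apply (m n : ℕ) (f : CA) (t : unitInterval) :
    ev t (kraus (rK m n) (compr (dsum fun i => ev (pt m i)) (dvec (vec n)) f))
      = ∑ i : Fin (m + 1), ((hat m i t : ℝ) : ℂ) •
        (if (i : ℕ) = 0 then ev 0 f else La n (ev (pt m i) f)) := by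
  rw [kraus_rK, map_sum]
  refine Finset.sum_congr rfl fun i _ => ?_
  rw [map_sum]
  simp only [map_sum, map_smul, ev_rr_mul, compr_dsum, if_true]
  by_cases h : (i : ℕ) = 0
  · simp only [if_pos h]
    rw [Finset.sum_eq_single (p0 n)]
    · rw [Finset.sum_eq_single (p0 n)]
      · rw [if_pos ⟨rfl, rfl⟩, smul_comm]
        congr 1
        rw [pt_zero m i h]
        obtain ⟨c, hc⟩ := f.2.2
        have hc' : ev 0 f = c • (1 : BH) := hc
        rw [hc']
        congr 1
        show ⟪vec n (p0 n), c • vec n (p0 n)⟫_ℂ = c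
        rw [inner_smul_right, orthonormal_iff_ite.1 (orthonormal_vec n), if_pos rfl, mul_one]
      · intro q _ hq
        rw [if_neg (fun h' => hq h'.2), smul_zero, smul_zero]
      · intro h'
        exact absurd (Finset.mem_univ _) h'
    · intro p _ hp
      refine Finset.sum_eq_zero fun q _ => ?_
      rw [if_neg (fun h' => hp h'.1), smul_zero, smul_zero]
    · intro h'
      exact absurd (Finset.mem_univ _) h'
  · simp only [if_neg h]
    rw [La, Finset.smul_sum, Finset.smul_sum]
    refine Finset.sum_congr rfl fun p _ => ?_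
    rw [Finset.smul_sum, Finset.smul_sum]
    refine Finset.sum_congr rfl fun q _ => ?_
    rw [smul_smul, smul_smul, smul_smul, smul_smul]
    congr 1
    ring

open TypeI in
/-- the counterexample is nuclear -/
theorem nuclear_CA : IsNuclear CA := by
  intro F ε hε
  -- choose `m`
  have h1 : ∀ f ∈ F, ∀ᶠ m : ℕ in atTop, ∀ s t : unitInterval, dist s t < 1 / m →
      ‖ev s f - ev t f‖ < ε / 3 := by
    intro f _
    have huc : UniformContinuous (f : CB) := CompactSpace.uniformContinuous_of_continuous (f : CB).continuous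
    rw [Metric.uniformContinuous_iff] at huc
    obtain ⟨δ, hδ, hδ2⟩ := huc (ε / 3) (by positivity)
    have h2 : ∀ᶠ m : ℕ in atTop, 1 / (m : ℝ) < δ :=
      (tendsto_one_div_atTop_nhds_zero_nat (𝕜 := ℝ)).eventually (gt_mem_nhds hδ)
    filter_upwards [h2] with m hm s t hst
    rw [← dist_eq_norm]
    exact hδ2 (hst.trans hm)
  obtain ⟨m, hm, hm0⟩ := (((Finset.eventually_all F).2 h1).and (eventually_gt_atTop 0)).exists
  -- choose `n`
  have h3 : ∀ f ∈ F, ∀ i : Fin (m + 1), ∀ᶠ n : ℕ in atTop,
      ‖La n (ev (pt m i) f) - ev (pt m i) f‖ < ε / 3 := by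
    intro f _ i
    have h4 := La_tendsto (a := ev (pt m i) f) (f.2.1 _)
    filter_upwards [Metric.tendsto_nhds.1 h4 (ε / 3) (by positivity)] with n hn
    rwa [← dist_eq_norm]
  obtain ⟨n, hn⟩ := ((Finset.eventually_all F).2 fun f hf => eventually_all.2 (h3 f hf)).exists
  refine ⟨(m + 1) * (V n).card, compr (dsum fun i => ev (pt m i)) (dvec (vec n)), kraus (rK m n),
    norm_compr_le _ (orthonormal_dvec (orthonormal_vec n)), norm_kraus_le _ ?_, ?_⟩
  · rw [sum_rK]
    exact norm_le_of_ev zero_le_one fun t => ContinuousLinearMap.norm_id_le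
  · intro f hf
    refine lt_of_le_of_lt (norm_le_of_ev (c := ε / 3 + ε / 3) (by positivity) fun t => ?_)
      (by linarith)
    rw [map_sub, approx_apply]
    have h5 : ev t f = ∑ i : Fin (m + 1), ((hat m i t : ℝ) : ℂ) • ev t f := by
      rw [← Finset.sum_smul, ← Complex.ofReal_sum, ← Finset.sum_range fun i => hat m i t, hat_sum]
      simp
    have h6 : ∀ i : Fin (m + 1), ‖((hat m i t : ℝ) : ℂ) •
        (if (i : ℕ) = 0 then ev 0 f else La n (ev (pt m i) f)) - ((hat m i t : ℝ) : ℂ) • ev t f‖
        ≤ hat m i t * (ε / 3 + ε / 3) := by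
      intro i
      rw [← smul_sub, norm_smul, Complex.norm_real, Real.norm_of_nonneg (hat_nonneg m i t)]
      by_cases hz : hat m i t = 0
      · rw [hz, zero_mul, zero_mul]
      · refine mul_le_mul_of_nonneg_left ?_ (hat_nonneg m i t)
        have h7 := hat_support m i t hz
        have hmpos : (0 : ℝ) < m := by exact_mod_cast hm0
        have h8 : dist (pt m i) t < 1 / m := by
          rw [Subtype.dist_eq, Real.dist_eq, pt_coe, lt_div_iff₀ hmpos, abs_sub_comm]
          calc |(t : ℝ) - (i : ℝ) / m| * m = |(t : ℝ) - (i : ℝ) / m| * |(m : ℝ)| := by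
                rw [abs_of_pos hmpos]
            _ = |((t : ℝ) - (i : ℝ) / m) * m| := (abs_mul _ _).symm
            _ = |(m : ℝ) * t - i| := by
                congr 1
                field_simp
            _ < 1 := h7
        have h9 := hm f hf _ _ h8
        split_ifs with h
        · rw [pt_zero m i h] at h9
          linarith
        · calc ‖La n (ev (pt m i) f) - ev t f‖
              = ‖(La n (ev (pt m i) f) - ev (pt m i) f) + (ev (pt m i) f - ev t f)‖ := by
                congr 1; abel
            _ ≤ _ := norm_add_le _ _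
            _ ≤ ε / 3 + ε / 3 := add_le_add (hn f hf i).le h9.le
    calc ‖∑ i : Fin (m + 1), ((hat m i t : ℝ) : ℂ) •
          (if (i : ℕ) = 0 then ev 0 f else La n (ev (pt m i) f)) - ev t f‖
        = ‖∑ i : Fin (m + 1), (((hat m i t : ℝ) : ℂ) •
          (if (i : ℕ) = 0 then ev 0 f else La n (ev (pt m i) f)) - ((hat m i t : ℝ) : ℂ) • ev t f)‖ := by
          rw [Finset.sum_sub_distrib, ← h5]
      _ ≤ ∑ i : Fin (m + 1), hat m i t * (ε / 3 + ε / 3) :=
          (norm_sum_le _ _).trans (Finset.sum_le_sum fun i _ => h6 i)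
      _ = ε / 3 + ε / 3 := by
          rw [← Finset.sum_mul, ← Finset.sum_range fun i => hat m i t, hat_sum, one_mul]

end Pool.Agent.W658.Cone
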