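import Mathlib
import Pool.Agent.W658.States

/-!
# Irreducible representations vanishing on a proper ideal
-/

set_option autoImplicit false

open scoped ComplexOrder InnerProductSpace ComplexConjugate
open Filter Topology

namespace Pool.Agent.W658.Irrep

section states

variable {Q : Type} [CStarAlgebra Q]

/-- the states of `Q` vanishing on `J`, as functions on `Q` -/
def StJ (J : Submodule ℂ Q) : Set (Q → ℂ) :=
  {f | (∀ a b, f (a + b) = f a + f b) ∧ (∀ (c : ℂ) a, f (c • a) = c * f a) ∧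
    (∀ a, 0 ≤ f (star a * a)) ∧ f 1 = 1 ∧ ∀ j ∈ J, f j = 0}

lemma isClosed_StJ (J : Submodule ℂ Q) : IsClosed (StJ J) := by
  have c1 : IsClosed {f : Q → ℂ | ∀ a b, f (a + b) = f a + f b} := by
    simp only [Set.ofPred_forall]
    refine isClosed_iInter fun a => isClosed_iInter fun b => isClosed_eq ?_ ?_
    · exact continuous_apply _
    · exact (continuous_apply _).add (continuous_apply _)
  have c2 : IsClosed {f : Q → ℂ | ∀ (c : ℂ) a, f (c • a) = c * f a} := by
    simp only [Set.ofPred_forall]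
    refine isClosed_iInter fun a => isClosed_iInter fun b => isClosed_eq ?_ ?_
    · exact continuous_apply _
    · exact continuous_const.mul (continuous_apply _)
  have c3 : IsClosed {f : Q → ℂ | ∀ a, 0 ≤ f (star a * a)} := by
    simp only [Set.ofPred_forall]
    refine isClosed_iInter fun a => ?_
    exact isClosed_le continuous_const (continuous_apply _)
  have c4 : IsClosed {f : Q → ℂ | f 1 = 1} := isClosed_eq (continuous_apply _) continuous_const
  have c5 : IsClosed {f : Q → ℂ | ∀ j ∈ J, f j = 0} := by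
    simp only [Set.ofPred_forall]
    refine isClosed_iInter fun a => isClosed_iInter fun b => isClosed_eq ?_ ?_
    · exact continuous_apply _
    · exact continuous_const
  exact c1.inter (c2.inter (c3.inter (c4.inter c5)))

lemma isCompact_StJ (J : Submodule ℂ Q) : IsCompact (StJ J) := by
  have h : StJ J ⊆ Set.pi Set.univ fun a : Q => Metric.closedBall (0 : ℂ) ‖a‖ := by
    rintro f ⟨h1, h2, h3, h4, _⟩ a _
    rw [mem_closedBall_zero_iff]
    exact norm_bound f h1 h2 h3 h4 a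
  exact (isCompact_univ_pi fun a => isCompact_closedBall _ _).of_isClosed_subset (isClosed_StJ J) h

lemma nonempty_StJ (J : Submodule ℂ Q) (hJl : ∀ a : Q, ∀ x ∈ J, a * x ∈ J) (h1 : (1 : Q) ∉ J) :
    (StJ J).Nonempty := by
  -- the distance from `1` to `J` is at least `1`
  have hd : ∀ x ∈ J, 1 ≤ ‖(1 : Q) - x‖ := by
    intro x hx
    by_contra hlt
    push Not at hlt
    have hu : IsUnit x := by
      have := isUnit_one_sub_of_norm_lt_one hlt
      rwa [sub_sub_cancel] at this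
    obtain ⟨u, rfl⟩ := hu
    apply h1
    have := hJl (↑u⁻¹ : Q) _ hx
    rwa [Units.inv_mul] at this
  have hnt : Nontrivial Q := by
    refine ⟨1, 0, fun h => h1 ?_⟩
    rw [h]
    exact zero_mem _
  let S : Submodule ℂ Q := J.topologicalClosure
  have hS : IsClosed (S : Set Q) := J.isClosed_topologicalClosure
  have : IsClosed (S.toAddSubgroup : Set Q) := hS
  have hd' : ∀ x ∈ S, 1 ≤ ‖(1 : Q) - x‖ := by
    intro x hx
    have hx' : x ∈ closure (J : Set Q) := hx
    refine closure_minimal (s := (J : Set Q)) (t := {y | 1 ≤ ‖(1 : Q) - y‖}) ?_ ?_ hx'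
    · exact hd
    · exact isClosed_le continuous_const (by fun_prop)
  have hq : ‖(Submodule.Quotient.mk (1 : Q) : Q ⧸ S)‖ = 1 := by
    refine le_antisymm ((Submodule.Quotient.norm_mk_le S _).trans (CStarRing.norm_one).le) ?_
    by_contra hlt
    push Not at hlt
    obtain ⟨m, hm1, hm2⟩ := Submodule.Quotient.norm_mk_lt (S := S)
      (Submodule.Quotient.mk (1 : Q) : Q ⧸ S) (sub_pos.2 hlt)
    rw [add_sub_cancel] at hm2
    have h2 : (1 : Q) - m ∈ S := (Submodule.Quotient.eq S).1 hm1.symm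
    have h3 := hd' _ h2
    rw [sub_sub_cancel] at h3
    linarith
  obtain ⟨g, hg1, hg2⟩ := exists_dual_vector ℂ (Submodule.Quotient.mk (1 : Q) : Q ⧸ S)
    (by rw [hq]; exact one_ne_zero)
  let f : Q →L[ℂ] ℂ := LinearMap.mkContinuous ((g : (Q ⧸ S) →ₗ[ℂ] ℂ) ∘ₗ S.mkQ) 1 (by
    intro x
    rw [one_mul]
    have h2 := g.le_opNorm (S.mkQ x)
    rw [hg1, one_mul] at h2
    exact h2.trans (Submodule.Quotient.norm_mk_le S _))
  have hf : ∀ x, f x = g (S.mkQ x) := fun x => rfl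
  have hf1 : f 1 = 1 := by
    rw [hf]
    have : g (S.mkQ 1) = ((‖(Submodule.Quotient.mk (1 : Q) : Q ⧸ S)‖ : ℝ) : ℂ) := hg2
    rw [this, hq]
    simp
  have hfn : ‖f‖ = 1 := by
    refine le_antisymm (LinearMap.mkContinuous_norm_le _ zero_le_one _) ?_
    have := f.le_opNorm 1
    rwa [hf1, CStarRing.norm_one, norm_one, mul_one] at this
  refine ⟨f, fun a b => map_add f a b, fun c a => by rw [map_smul, smul_eq_mul],
    pos_of_norm f hfn hf1, hf1, fun j hj => ?_⟩
  rw [hf]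
  have : S.mkQ j = 0 := by
    rw [Submodule.mkQ_apply, Submodule.Quotient.mk_eq_zero]
    exact J.le_topologicalClosure hj
  rw [this, map_zero]

end states

section gns

variable {Q : Type} [CStarAlgebra Q]

/-- a representation is irreducible (unital version) -/
theorem exists_irrep (J : Submodule ℂ Q) (hJl : ∀ a : Q, ∀ x ∈ J, a * x ∈ J)
    (hJr : ∀ a : Q, ∀ x ∈ J, x * a ∈ J) (h1 : (1 : Q) ∉ J) :
    ∃ (K : Type) (_ : NormedAddCommGroup K) (_ : InnerProductSpace ℂ K) (_ : CompleteSpace K)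
      (π : Q →⋆ₐ[ℂ] (K →L[ℂ] K)), (∃ x : K, x ≠ 0) ∧ (∀ j ∈ J, π j = 0) ∧
      ∀ U : Submodule ℂ K, IsClosed (U : Set K) → (∀ a, ∀ x ∈ U, π a x ∈ U) → U = ⊥ ∨ U = ⊤ := by
  let : PartialOrder Q := CStarAlgebra.spectralOrder Q
  have : StarOrderedRing Q := CStarAlgebra.spectralOrderedRing Q
  obtain ⟨f, hf⟩ := (isCompact_StJ J).extremePoints_nonempty (nonempty_StJ J hJl h1)
  rw [mem_extremePoints] at hf
  obtain ⟨⟨hadd, hsmul, hpos, hone, hJ⟩, hext⟩ := hf
  let F : Q →ₚ[ℂ] ℂ := PositiveLinearMap.mk₀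
    { toFun := f, map_add' := hadd, map_smul' := hsmul } (by
      intro x hx
      obtain ⟨y, rfl⟩ := CStarAlgebra.nonneg_iff_eq_star_mul_self.1 hx
      exact hpos y)
  have hF : ∀ x, F x = f x := fun x => rfl
  let π := F.gnsStarAlgHom
  let z : F.GNS := ((F.toPreGNS 1 : F.PreGNS) : F.GNS)
  have hπz : ∀ a, π a z = ((F.toPreGNS a : F.PreGNS) : F.GNS) := by
    intro a
    show F.gnsNonUnitalStarAlgHom a z = _
    rw [PositiveLinearMap.gnsNonUnitalStarAlgHom_apply_coe]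
    congr 1
    show F.toPreGNS (a * 1) = _
    rw [mul_one]
  have hfz : ∀ a, ⟪z, π a z⟫_ℂ = f a := by
    intro a
    rw [hπz, UniformSpace.Completion.inner_coe, PositiveLinearMap.preGNS_inner_def]
    show F (star 1 * a) = f a
    rw [star_one, one_mul, hF]
  have hdense : ∀ x : F.GNS, (∀ a, ⟪x, π a z⟫_ℂ = 0) → x = 0 := by
    intro x hx
    have h2 : ∀ y : F.GNS, ⟪x, y⟫_ℂ = 0 := by
      intro y
      induction y using UniformSpace.Completion.induction_on with
      | hp => exact isClosed_eq (by fun_prop) continuous_const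
      | ih y =>
        have := hx (F.ofPreGNS y)
        rw [hπz, PositiveLinearMap.toPreGNS_ofPreGNS] at this
        exact this
    exact inner_self_eq_zero.1 (h2 x)
  have hzn : ⟪z, z⟫_ℂ = 1 := by
    have := hfz 1
    rwa [map_one, one_apply_eq_self, hone] at this
  have hadj : ∀ a x y, ⟪x, π a y⟫_ℂ = ⟪π (star a) x, y⟫_ℂ := by
    intro a x y
    rw [map_star, ContinuousLinearMap.star_eq_adjoint, ContinuousLinearMap.adjoint_inner_left]
  have hπJ : ∀ j ∈ J, π j = 0 := by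
    intro j hj
    ext x
    show π j x = 0
    induction x using UniformSpace.Completion.induction_on with
    | hp => exact isClosed_eq (by fun_prop) continuous_const
    | ih y =>
      have e1 : ((y : F.PreGNS) : F.GNS) = π (F.ofPreGNS y) z := by
        rw [hπz, PositiveLinearMap.toPreGNS_ofPreGNS]
      rw [e1, ← mul_apply_eq_comp, ← map_mul]
      have e2 : ⟪π (j * F.ofPreGNS y) z, π (j * F.ofPreGNS y) z⟫_ℂ = 0 := by
        rw [hadj, ← mul_apply_eq_comp, ← map_mul]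
        have : star (star (j * F.ofPreGNS y) * (j * F.ofPreGNS y))
            = star (j * F.ofPreGNS y) * (j * F.ofPreGNS y) := by
          rw [star_mul, star_star]
        rw [← inner_conj_symm, hfz]
        rw [hJ _ (hJl _ _ (hJr _ _ hj)), map_zero]
      exact inner_self_eq_zero.1 e2
  refine ⟨F.GNS, inferInstance, inferInstance, inferInstance, π, ⟨z, ?_⟩, hπJ, ?_⟩
  · intro h
    rw [h, inner_zero_left] at hzn
    exact zero_ne_one hzn
  intro U hU hinv
  have : CompleteSpace U := hU.completeSpace_coe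
  let z1 : F.GNS := U.starProjection z
  let z2 : F.GNS := z - z1
  have hz1 : z1 ∈ U := U.starProjection_apply_mem z
  have hz2 : z2 ∈ Uᗮ := U.sub_starProjection_mem_orthogonal z
  have hsum : z = z1 + z2 := by simp [z2]
  have hinv' : ∀ a, ∀ x ∈ Uᗮ, π a x ∈ Uᗮ := by
    intro a x hx
    rw [Submodule.mem_orthogonal] at hx ⊢
    intro u hu
    rw [hadj]
    exact hx _ (hinv _ _ hu)
  have horth : ∀ x ∈ U, ∀ y ∈ Uᗮ, ⟪x, y⟫_ℂ = 0 := fun x hx y hy => (Submodule.mem_orthogonal _ _).1 hy x hx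
  have horth' : ∀ x ∈ U, ∀ y ∈ Uᗮ, ⟪y, x⟫_ℂ = 0 := fun x hx y hy => by
    rw [← inner_conj_symm, horth x hx y hy, map_zero]
  -- the two functionals
  have hf12 : ∀ a, f a = ⟪z1, π a z1⟫_ℂ + ⟪z2, π a z2⟫_ℂ := by
    intro a
    rw [← hfz, hsum, map_add, inner_add_left, inner_add_right, inner_add_right,
      horth _ hz1 _ (hinv' a _ hz2), horth' _ (hinv a _ hz1) _ hz2]
    ring
  have hfz1 : ∀ a, ⟪z1, π a z⟫_ℂ = ⟪z1, π a z1⟫_ℂ := by
    intro a
    rw [hsum, map_add, inner_add_right, horth _ hz1 _ (hinv' a _ hz2), add_zero]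
  by_cases h10 : z1 = 0
  · -- `z ∈ Uᗮ`, so `U = ⊥`
    left
    rw [Submodule.eq_bot_iff]
    intro x hx
    refine hdense x fun a => ?_
    have : z ∈ Uᗮ := by
      have h3 : z2 = z := by simp [z2, h10]
      rw [← h3]
      exact hz2
    exact horth _ hx _ (hinv' a _ this)
  by_cases h20 : z2 = 0
  · -- `z ∈ U`, so `U = ⊤`
    right
    have hzU : z ∈ U := by
      rw [hsum, h20, add_zero]
      exact hz1
    have : Uᗮ = ⊥ := by
      rw [Submodule.eq_bot_iff]
      intro x hx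
      exact hdense x fun a => horth' _ (hinv a _ hzU) _ hx
    rwa [Submodule.orthogonal_eq_bot_iff] at this
  exfalso
  -- the norms
  have hn1 : ⟪z1, z1⟫_ℂ = ((‖z1‖ ^ 2 : ℝ) : ℂ) := by
    rw [inner_self_eq_norm_sq_to_K]
    push_cast
    rfl
  have hn2 : ⟪z2, z2⟫_ℂ = ((‖z2‖ ^ 2 : ℝ) : ℂ) := by
    rw [inner_self_eq_norm_sq_to_K]
    push_cast
    rfl
  set t1 : ℝ := ‖z1‖ ^ 2 with ht1
  set t2 : ℝ := ‖z2‖ ^ 2 with ht2
  have ht1pos : 0 < t1 := by rw [ht1]; have := norm_pos_iff.2 h10; positivity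
  have ht2pos : 0 < t2 := by rw [ht2]; have := norm_pos_iff.2 h20; positivity
  have ht12 : t1 + t2 = 1 := by
    have h3 := hf12 1
    rw [hone, map_one, one_apply_eq_self, one_apply_eq_self, hn1, hn2] at h3
    have h4 : ((t1 + t2 : ℝ) : ℂ) = ((1 : ℝ) : ℂ) := by
      push_cast
      rw [← h3]
    exact_mod_cast h4
  let g1 : Q → ℂ := fun a => ((t1⁻¹ : ℝ) : ℂ) * ⟪z1, π a z1⟫_ℂ
  let g2 : Q → ℂ := fun a => ((t2⁻¹ : ℝ) : ℂ) * ⟪z2, π a z2⟫_ℂ
  have hmem : ∀ (w : F.GNS) (t : ℝ), 0 < t → ⟪w, w⟫_ℂ = (t : ℂ) →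
      (fun a => ((t⁻¹ : ℝ) : ℂ) * ⟪w, π a w⟫_ℂ) ∈ StJ J := by
    intro w t ht hw
    refine ⟨?_, ?_, ?_, ?_, ?_⟩
    · intro a b
      simp only [map_add, add_apply, inner_add_right, mul_add]
    · intro c a
      simp only [map_smul, smul_apply, inner_smul_right]
      ring
    · intro a
      have h5 : ⟪w, π (star a * a) w⟫_ℂ = ((‖π a w‖ ^ 2 : ℝ) : ℂ) := by
        rw [map_mul, mul_apply_eq_comp, hadj, star_star, inner_self_eq_norm_sq_to_K]
        push_cast
        rfl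
      show 0 ≤ ((t⁻¹ : ℝ) : ℂ) * ⟪w, π (star a * a) w⟫_ℂ
      rw [h5, ← Complex.ofReal_mul]
      exact Complex.zero_le_real.2 (by positivity)
    · show ((t⁻¹ : ℝ) : ℂ) * ⟪w, π 1 w⟫_ℂ = 1
      rw [map_one, one_apply_eq_self, hw, ← Complex.ofReal_mul, inv_mul_cancel₀ ht.ne', Complex.ofReal_one]
    · intro j hj
      show ((t⁻¹ : ℝ) : ℂ) * ⟪w, π j w⟫_ℂ = 0
      rw [hπJ j hj, zero_apply, inner_zero_right, mul_zero]
  have hg1 : g1 ∈ StJ J := hmem z1 t1 ht1pos hn1
  have hg2 : g2 ∈ StJ J := hmem z2 t2 ht2pos hn2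
  have hseg : f ∈ openSegment ℝ g1 g2 := by
    refine ⟨t1, t2, ht1pos, ht2pos, ht12, ?_⟩
    ext a
    show (t1 : ℝ) • g1 a + (t2 : ℝ) • g2 a = f a
    rw [hf12 a, Complex.real_smul, Complex.real_smul]
    show (t1 : ℂ) * (((t1⁻¹ : ℝ) : ℂ) * ⟪z1, π a z1⟫_ℂ) + (t2 : ℂ) * (((t2⁻¹ : ℝ) : ℂ) * ⟪z2, π a z2⟫_ℂ) = _
    rw [← mul_assoc, ← mul_assoc, ← Complex.ofReal_mul, ← Complex.ofReal_mul,
      mul_inv_cancel₀ ht1pos.ne', mul_inv_cancel₀ ht2pos.ne', Complex.ofReal_one, one_mul, one_mul]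
  have hg1f : g1 = f := (hext g1 hg1 g2 hg2 hseg).1
  have hz1t : z1 - (t1 : ℂ) • z = 0 := by
    refine hdense _ fun a => ?_
    have h6 : g1 a = f a := congrFun hg1f a
    have h7 : ((t1⁻¹ : ℝ) : ℂ) * ⟪z1, π a z1⟫_ℂ = f a := h6
    have ht1c : (t1 : ℂ) ≠ 0 := by exact_mod_cast ht1pos.ne'
    rw [inner_sub_left, inner_smul_left, Complex.conj_ofReal, hfz, hfz1, ← h7]
    push_cast
    field_simp
    ring
  have hz1t' : z1 = (t1 : ℂ) • z := sub_eq_zero.1 hz1t
  have hzU : z ∈ U := by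
    have ht1c : (t1 : ℂ) ≠ 0 := by exact_mod_cast ht1pos.ne'
    have h8 : z = (t1 : ℂ)⁻¹ • z1 := by
      rw [hz1t', smul_smul, inv_mul_cancel₀ ht1c, one_smul]
    rw [h8]
    exact U.smul_mem _ hz1
  apply h20
  have h9 : z2 ∈ U := U.sub_mem hzU hz1
  exact inner_self_eq_zero.1 (horth _ h9 _ hz2)

end gns

end Pool.Agent.W658.Irrep
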