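import Mathlib
import Pool.Agent.W658.Irrep
import Pool.Agent.W658.TIDefs

/-!
# A C*-algebra containing two almost isometries with almost orthogonal ranges is not type I
-/

set_option autoImplicit false

open scoped ComplexOrder InnerProductSpace ComplexConjugate
open Filter Topology

namespace Pool.Agent.W658.NotTypeI

open Pool.Agent.W658.Irrep Pool.Agent.W658.TypeI

/-- a maximal proper two-sided ideal -/
theorem exists_max_ideal (Q : Type) [CStarAlgebra Q] [Nontrivial Q] :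
    ∃ J : Submodule ℂ Q, (∀ a : Q, ∀ x ∈ J, a * x ∈ J) ∧ (∀ a : Q, ∀ x ∈ J, x * a ∈ J) ∧
      (1 : Q) ∉ J ∧ ∀ I : Submodule ℂ Q, (∀ a : Q, ∀ x ∈ I, a * x ∈ I) →
        (∀ a : Q, ∀ x ∈ I, x * a ∈ I) → J ≤ I → (1 : Q) ∈ I ∨ I ≤ J := by
  let T : Set (Submodule ℂ Q) := {J | (∀ a : Q, ∀ x ∈ J, a * x ∈ J) ∧
    (∀ a : Q, ∀ x ∈ J, x * a ∈ J) ∧ (1 : Q) ∉ J}
  have hbot : (⊥ : Submodule ℂ Q) ∈ T := by
    refine ⟨?_, ?_, ?_⟩
    · intro a x hx
      rw [Submodule.mem_bot] at hx ⊢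
      rw [hx, mul_zero]
    · intro a x hx
      rw [Submodule.mem_bot] at hx ⊢
      rw [hx, zero_mul]
    · rw [Submodule.mem_bot]
      exact one_ne_zero
  obtain ⟨J, _, hJ⟩ := zorn_le_nonempty₀ T (by
    intro c hc hchain y hy
    refine ⟨sSup c, ⟨?_, ?_, ?_⟩, fun z hz => le_sSup hz⟩
    · intro a x hx
      rw [Submodule.mem_sSup_of_directed ⟨y, hy⟩ hchain.directedOn] at hx ⊢
      obtain ⟨I, hI, hx⟩ := hx
      exact ⟨I, hI, (hc hI).1 a x hx⟩
    · intro a x hx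
      rw [Submodule.mem_sSup_of_directed ⟨y, hy⟩ hchain.directedOn] at hx ⊢
      obtain ⟨I, hI, hx⟩ := hx
      exact ⟨I, hI, (hc hI).2.1 a x hx⟩
    · intro h
      rw [Submodule.mem_sSup_of_directed ⟨y, hy⟩ hchain.directedOn] at h
      obtain ⟨I, hI, hx⟩ := h
      exact (hc hI).2.2 hx) ⊥ hbot
  refine ⟨J, hJ.prop.1, hJ.prop.2.1, hJ.prop.2.2, ?_⟩
  intro I h1 h2 h3
  by_cases h4 : (1 : Q) ∈ I
  · exact Or.inl h4
  · exact Or.inr (hJ.le_of_ge ⟨h1, h2, h4⟩ h3)

/-- in a finite dimensional space there are no two almost isometries with almost orthogonal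
ranges -/
theorem fd_contra {K : Type} [NormedAddCommGroup K] [InnerProductSpace ℂ K] [CompleteSpace K]
    [FiniteDimensional ℂ K] (T0 T1 : K →L[ℂ] K) (h0 : ‖star T0 * T0 - 1‖ ≤ 1 / 4)
    (h1 : ‖star T1 * T1 - 1‖ ≤ 1 / 4) (h01 : ‖star T0 * T1‖ ≤ 1 / 4) (x : K) : x = 0 := by
  let L : (K × K) →ₗ[ℂ] K := (T0 : K →ₗ[ℂ] K).coprod (T1 : K →ₗ[ℂ] K)
  have hself : ∀ (T : K →L[ℂ] K) (_ : ‖star T * T - 1‖ ≤ 1 / 4) (u : K), 3 / 4 * ‖u‖ ^ 2 ≤ ‖T u‖ ^ 2 := by
    intro T hT u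
    have e1 : ((‖T u‖ ^ 2 : ℝ) : ℂ) = ⟪u, (star T * T - 1) u⟫_ℂ + ((‖u‖ ^ 2 : ℝ) : ℂ) := by
      have e2 : ⟪u, u⟫_ℂ = ((‖u‖ ^ 2 : ℝ) : ℂ) := by
        rw [inner_self_eq_norm_sq_to_K]; push_cast; rfl
      have e3 : ⟪T u, T u⟫_ℂ = ((‖T u‖ ^ 2 : ℝ) : ℂ) := by
        rw [inner_self_eq_norm_sq_to_K]; push_cast; rfl
      rw [← e3, ← e2, sub_apply, inner_sub_right, mul_apply_eq_comp,
        ContinuousLinearMap.star_eq_adjoint, ContinuousLinearMap.adjoint_inner_right,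
        one_apply_eq_self]
      ring
    have e4 : ‖⟪u, (star T * T - 1) u⟫_ℂ‖ ≤ 1 / 4 * ‖u‖ ^ 2 := by
      calc ‖⟪u, (star T * T - 1) u⟫_ℂ‖ ≤ ‖u‖ * ‖(star T * T - 1) u‖ := norm_inner_le_norm _ _
        _ ≤ ‖u‖ * (1 / 4 * ‖u‖) := by
            refine mul_le_mul_of_nonneg_left ?_ (norm_nonneg _)
            exact ((star T * T - 1).le_opNorm u).trans
              (mul_le_mul_of_nonneg_right hT (norm_nonneg _))
        _ = _ := by ring
    have e5 := congrArg Complex.re e1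
    rw [Complex.ofReal_re, Complex.add_re, Complex.ofReal_re] at e5
    have e6 := Complex.abs_re_le_norm ⟪u, (star T * T - 1) u⟫_ℂ
    have e7 := abs_le.1 (e6.trans e4)
    linarith [e7.1]
  have hinj : Function.Injective L := by
    rw [injective_iff_map_eq_zero]
    rintro ⟨u, v⟩ huv
    have huv' : T0 u + T1 v = 0 := huv
    have e1 : ‖T0 u‖ ^ 2 = ‖T1 v‖ ^ 2 := by
      rw [eq_neg_of_add_eq_zero_left huv', norm_neg]
    have e2 : ‖T0 u‖ ^ 2 ≤ 1 / 4 * (‖u‖ * ‖v‖) := by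
      have e3 : ((‖T0 u‖ ^ 2 : ℝ) : ℂ) = - ⟪u, (star T0 * T1) v⟫_ℂ := by
        have e3 : ⟪T0 u, T0 u⟫_ℂ = ((‖T0 u‖ ^ 2 : ℝ) : ℂ) := by
          rw [inner_self_eq_norm_sq_to_K]; push_cast; rfl
        rw [← e3, mul_apply_eq_comp, ContinuousLinearMap.star_eq_adjoint,
          ContinuousLinearMap.adjoint_inner_right, ← inner_neg_right,
          ← eq_neg_of_add_eq_zero_left huv']
      have e4 : ‖T0 u‖ ^ 2 = ‖(((‖T0 u‖ ^ 2 : ℝ) : ℂ))‖ := by
        rw [Complex.norm_real, Real.norm_of_nonneg (by positivity)]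
      rw [e4, e3, norm_neg]
      calc ‖⟪u, (star T0 * T1) v⟫_ℂ‖ ≤ ‖u‖ * ‖(star T0 * T1) v‖ := norm_inner_le_norm _ _
        _ ≤ ‖u‖ * (1 / 4 * ‖v‖) := by
            refine mul_le_mul_of_nonneg_left ?_ (norm_nonneg _)
            exact ((star T0 * T1).le_opNorm v).trans
              (mul_le_mul_of_nonneg_right h01 (norm_nonneg _))
        _ = _ := by ring
    have e5 := hself T0 h0 u
    have e6 := hself T1 h1 v
    have e7 : ‖u‖ * ‖v‖ ≤ (‖u‖ ^ 2 + ‖v‖ ^ 2) / 2 := by nlinarith [sq_nonneg (‖u‖ - ‖v‖)]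
    have e8 : ‖u‖ ^ 2 + ‖v‖ ^ 2 ≤ 0 := by nlinarith
    have e9 : ‖u‖ = 0 := by nlinarith [sq_nonneg ‖u‖, sq_nonneg ‖v‖, norm_nonneg u]
    have e10 : ‖v‖ = 0 := by nlinarith [sq_nonneg ‖u‖, sq_nonneg ‖v‖, norm_nonneg v]
    rw [norm_eq_zero] at e9 e10
    rw [e9, e10]
    rfl
  have hfin := LinearMap.finrank_le_finrank_of_injective hinj
  rw [Module.finrank_prod] at hfin
  have h0 : Module.finrank ℂ K = 0 := by omega
  have := Module.finrank_zero_iff.1 h0
  exact Subsingleton.elim _ _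

/-- a *-algebra which maps densely to a unital C*-algebra containing two almost isometries with
almost orthogonal ranges is not of type I -/
theorem not_typeI {B Q : Type} [NonUnitalRing B] [StarRing B] [Module ℂ B] [CStarAlgebra Q]
    [Nontrivial Q] (ρ : B →⋆ₙₐ[ℂ] Q) (hρ : DenseRange ρ) (c0 c1 : Q)
    (h0 : ‖star c0 * c0 - 1‖ ≤ 1 / 4) (h1 : ‖star c1 * c1 - 1‖ ≤ 1 / 4)
    (h01 : ‖star c0 * c1‖ ≤ 1 / 4) : ¬ IsTypeI B := by
  intro hB
  obtain ⟨J, hJl, hJr, hJ1, hJmax⟩ := exists_max_ideal Q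
  obtain ⟨K, i1, i2, i3, π, ⟨x0, hx0⟩, hπJ, hirr⟩ := exists_irrep J hJl hJr hJ1
  have hnorm : ∀ a, ‖π a‖ ≤ ‖a‖ := fun a => NonUnitalStarAlgHom.norm_apply_le π a
  have hπc : Continuous π := by
    refine AddMonoidHomClass.continuous_of_bound π 1 fun a => ?_
    rw [one_mul]
    exact hnorm a
  let σ : B →⋆ₙₐ[ℂ] (K →L[ℂ] K) := (π : Q →⋆ₙₐ[ℂ] (K →L[ℂ] K)).comp ρ
  have hσ : ∀ b, σ b = π (ρ b) := fun b => rfl
  have hσirr : IsIrreducible σ := by
    refine ⟨?_, ?_⟩
    · intro h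
      -- then `π = 0`
      have h2 : ∀ q : Q, π q = 0 := by
        intro q
        refine hρ.induction_on (p := fun q => π q = 0) q (isClosed_eq hπc continuous_const) ?_
        intro b
        rw [← hσ, h]
        rfl
      have h3 := h2 1
      rw [map_one] at h3
      apply hx0
      have : (1 : K →L[ℂ] K) x0 = 0 := by rw [h3]; rfl
      exact this
    · intro U hU hinv
      refine hirr U hU ?_
      intro a x hx
      refine hρ.induction_on (p := fun q => π q x ∈ U) a ?_ ?_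
      · exact hU.preimage (by fun_prop)
      · intro b
        exact hinv b x hx
  have hcomp := hB K σ hσirr
  -- the ideal of elements mapped to compact operators
  let J' : Submodule ℂ Q :=
    { carrier := {a | IsCompactOperator (π a)}
      add_mem' := by
        intro a b ha hb
        show IsCompactOperator (π (a + b))
        rw [map_add]
        exact ha.add hb
      zero_mem' := by
        show IsCompactOperator (π 0)
        rw [map_zero]
        exact isCompactOperator_zero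
      smul_mem' := by
        intro c a ha
        show IsCompactOperator (π (c • a))
        rw [map_smul]
        exact ha.smul c }
  have hJ' : ∀ a, a ∈ J' ↔ IsCompactOperator (π a) := fun a => Iff.rfl
  have hl : ∀ a : Q, ∀ x ∈ J', a * x ∈ J' := by
    intro a x hx
    rw [hJ', map_mul]
    exact IsCompactOperator.clm_comp hx (π a)
  have hr : ∀ a : Q, ∀ x ∈ J', x * a ∈ J' := by
    intro a x hx
    rw [hJ', map_mul]
    exact IsCompactOperator.comp_clm hx (π a)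
  have hJJ' : J ≤ J' := by
    intro x hx
    rw [hJ', hπJ x hx]
    exact isCompactOperator_zero
  rcases hJmax J' hl hr hJJ' with h | h
  · -- the identity is compact
    rw [hJ', map_one] at h
    have hfd : FiniteDimensional ℂ K := by
      rw [← isCompactOperator_id_iff_finiteDimensional (𝕜 := ℂ)]
      exact h
    refine hx0 (fd_contra (π c0) (π c1) ?_ ?_ ?_ x0)
    · rw [← map_star, ← map_mul, ← map_one π, ← map_sub]
      exact (hnorm _).trans h0
    · rw [← map_star, ← map_mul, ← map_one π, ← map_sub]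
      exact (hnorm _).trans h1
    · rw [← map_star, ← map_mul]
      exact (hnorm _).trans h01
  · -- no compact operator in the image
    let T : K →L[ℂ] K := InnerProductSpace.rankOne ℂ x0 x0
    have hT : IsCompactOperator T := by
      have e1 : IsCompactOperator (innerSL ℂ x0 : K →L[ℂ] ℂ) :=
        (isCompactOperator_id (E := ℂ)).comp_clm (innerSL ℂ x0 : K →L[ℂ] ℂ)
      have e2 := IsCompactOperator.clm_comp e1 (ContinuousLinearMap.toSpanSingleton ℂ x0)
      have e3 : (⇑T : K → K) = ⇑(ContinuousLinearMap.toSpanSingleton ℂ x0) ∘ ⇑(innerSL ℂ x0 : K →L[ℂ] ℂ) := by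
        funext x
        show InnerProductSpace.rankOne ℂ x0 x0 x = _
        rw [InnerProductSpace.rankOne_apply]
        rfl
      rw [e3]
      exact e2
    obtain ⟨b, hb⟩ := hcomp T hT
    have hb2 : ρ b ∈ J' := by
      rw [hJ', ← hσ, hb]
      exact hT
    have h3 : T = 0 := by
      rw [← hb, hσ, hπJ _ (h hb2)]
    have h4 : T x0 = 0 := by rw [h3]; rfl
    rw [InnerProductSpace.rankOne_apply] at h4
    rcases smul_eq_zero.1 h4 with h5 | h5
    · exact hx0 (inner_self_eq_zero.1 h5)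
    · exact hx0 h5

end Pool.Agent.W658.NotTypeI
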