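import Mathlib
import Pool.Agent.W658.Cone
import Pool.Agent.W658.NotTypeI

/-!
# The unitised cone over the Cuntz algebra: stable finiteness, no local type I approximation
-/

set_option autoImplicit false

open scoped InnerProductSpace CStarAlgebra ComplexOrder
open Filter Topology

namespace Pool.Agent.W658.Cone

open Pool.Agent.W658.TypeI Pool.Agent.W658.NotTypeI

section sf

variable {n : ℕ}

/-- the matrix at `t` -/
noncomputable def vt (v : Matrix (Fin n) (Fin n) CA) (t : unitInterval) :
    CStarMatrix (Fin n) (Fin n) BH := CStarMatrix.ofMatrix fun i j => ev t (v i j)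

lemma vt_apply (v : Matrix (Fin n) (Fin n) CA) (t : unitInterval) (i j : Fin n) :
    vt v t i j = ev t (v i j) := rfl

lemma vt_mul (v w : Matrix (Fin n) (Fin n) CA) (t : unitInterval) : vt (v * w) t = vt v t * vt w t := by
  refine CStarMatrix.ext fun i j => ?_
  rw [vt_apply, Matrix.mul_apply, CStarMatrix.mul_apply, map_sum]
  show ∑ k, ev t (v i k * w k j) = ∑ k, ev t (v i k) * ev t (w k j)
  simp only [map_mul]

lemma vt_star (v : Matrix (Fin n) (Fin n) CA) (t : unitInterval) : vt (star v) t = star (vt v t) := by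
  ext i j
  rw [vt_apply, CStarMatrix.star_apply, Matrix.star_apply, map_star]
  rfl

lemma ev_one (t : unitInterval) : ev t 1 = 1 := rfl

lemma vt_one (t : unitInterval) : vt (1 : Matrix (Fin n) (Fin n) CA) t = 1 := by
  ext i j
  rw [vt_apply, Matrix.one_apply, CStarMatrix.one_apply]
  split_ifs
  · rfl
  · rfl

lemma vt_sub (v w : Matrix (Fin n) (Fin n) CA) (t : unitInterval) : vt (v - w) t = vt v t - vt w t := by
  ext i j
  rw [vt_apply, Matrix.sub_apply, CStarMatrix.sub_apply, map_sub]
  rfl

lemma continuous_vt (v : Matrix (Fin n) (Fin n) CA) : Continuous (vt v) := by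
  refine continuous_pi fun i => continuous_pi fun j => ?_
  exact (v i j : CB).continuous

lemma vt_injective {v w : Matrix (Fin n) (Fin n) CA} (h : ∀ t, vt v t = vt w t) : v = w := by
  ext i j
  have h2 : v i j = w i j := CA_ext fun t => by
    have := congrArg (fun M : CStarMatrix (Fin n) (Fin n) BH => M i j) (h t)
    exact this
  rw [h2]

theorem stablyFinite_CA : IsStablyFinite CA := by
  intro n v hv
  let p : Matrix (Fin n) (Fin n) CA := 1 - v * star v
  have hps : star p = p := by
    show star (1 - v * star v) = 1 - v * star v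
    rw [star_sub, star_one, star_mul, star_star]
  have hpp : p * p = p := by
    show (1 - v * star v) * (1 - v * star v) = 1 - v * star v
    have h1 : v * star v * (v * star v) = v * star v := by
      rw [mul_assoc, ← mul_assoc (star v), hv, one_mul]
    rw [sub_mul, mul_sub, mul_sub, one_mul, mul_one, one_mul, h1]
    abel
  have hnorm : ∀ t, ‖vt p t‖ = 0 ∨ ‖vt p t‖ = 1 := by
    intro t
    have h1 : ‖star (vt p t) * vt p t‖ = ‖vt p t‖ * ‖vt p t‖ := CStarRing.norm_star_mul_self
    rw [← vt_star, ← vt_mul, hps, hpp] at h1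
    rcases eq_or_ne ‖vt p t‖ 0 with h2 | h2
    · exact Or.inl h2
    · right
      have h3 : ‖vt p t‖ * 1 = ‖vt p t‖ * ‖vt p t‖ := by rw [mul_one]; exact h1
      exact (mul_left_cancel₀ h2 h3).symm
  -- the value at zero
  have h0 : ‖vt p 0‖ = 0 := by
    rw [norm_eq_zero]
    have hc : ∀ i j, ∃ c : ℂ, ev 0 (v i j) = c • (1 : BH) := fun i j => (v i j).2.2
    choose c hc using hc
    have hinj : ∀ a b : ℂ, a • (1 : BH) = b • (1 : BH) → a = b := by
      intro a b hab
      have h2 : a • xi = b • xi := congrArg (fun T : BH => T xi) hab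
      have h3 : xi ≠ 0 := by
        intro h
        have := norm_xi
        rw [h, norm_zero] at this
        exact zero_ne_one this
      exact smul_left_injective ℂ h3 h2
    let C : Matrix (Fin n) (Fin n) ℂ := Matrix.of c
    have hC : star C * C = 1 := by
      ext i j
      apply hinj
      have h2 := congrArg (fun M : Matrix (Fin n) (Fin n) CA => ev 0 (M i j)) hv
      simp only [Matrix.mul_apply, Matrix.star_apply, map_sum, map_mul, map_star, hc, star_smul,
        star_one, smul_mul_smul_comm, mul_one] at h2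
      rw [Matrix.mul_apply, Finset.sum_smul]
      refine Eq.trans ?_ (h2.trans ?_)
      · rfl
      · rw [Matrix.one_apply, Matrix.one_apply]
        split_ifs
        · rw [one_smul]; rfl
        · rw [zero_smul]; rfl
    have hC2 : C * star C = 1 := mul_eq_one_comm.1 hC
    show vt (1 - v * star v) 0 = 0
    rw [vt_sub, sub_eq_zero, vt_one, vt_mul, vt_star]
    ext i j
    rw [CStarMatrix.mul_apply, CStarMatrix.one_apply]
    have h3 := congrArg (fun M : Matrix (Fin n) (Fin n) ℂ => (M i j) • (1 : BH)) hC2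
    simp only [Matrix.mul_apply, Finset.sum_smul] at h3
    have h4 : ∑ k, (vt v 0) i k * (star (vt v 0)) k j = ∑ k, (C i k * star C k j) • (1 : BH) := by
      refine Finset.sum_congr rfl fun k _ => ?_
      rw [CStarMatrix.star_apply, vt_apply, vt_apply, hc, hc, star_smul, star_one,
        smul_mul_smul_comm, mul_one]
      rfl
    rw [h4, h3, Matrix.one_apply]
    split_ifs
    · rw [one_smul]
    · rw [zero_smul]
  have hcont : Continuous fun t => ‖vt p t‖ := (continuous_vt p).norm
  have hall : ∀ t, ‖vt p t‖ = 0 := by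
    intro t
    rcases hnorm t with h | h
    · exact h
    · exfalso
      have h2 : (1 / 2 : ℝ) ∈ Set.range fun t => ‖vt p t‖ :=
        mem_range_of_exists_le_of_exists_ge hcont ⟨0, by rw [h0]; norm_num⟩ ⟨t, by rw [h]; norm_num⟩
      obtain ⟨s, hs⟩ := h2
      have hs' : ‖vt p s‖ = 1 / 2 := hs
      rcases hnorm s with h3 | h3
      · rw [h3] at hs'
        norm_num at hs'
      · rw [h3] at hs'
        norm_num at hs'
  have hp0 : p = 0 := by
    refine vt_injective fun t => ?_
    rw [norm_eq_zero.1 (hall t)]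
    refine CStarMatrix.ext fun i j => ?_
    show 0 = ev t 0
    rw [map_zero]
  have : (1 : Matrix (Fin n) (Fin n) CA) - v * star v = 0 := hp0
  rw [sub_eq_zero] at this
  exact this.symm

end sf

/-- the elements `t ↦ t • s b` -/
noncomputable def gen (b : Bool) : CA :=
  ⟨el ⟨fun t => (t : ℝ), by fun_prop⟩ (s b), el_mem (by
    have := S_mem_O2 [b]
    simpa using this) rfl⟩

lemma ev_one_gen (b : Bool) : ev 1 (gen b) = s b := by
  show (((1 : unitInterval) : ℝ) : ℂ) • s b = s b
  rw [show ((1 : unitInterval) : ℝ) = 1 from rfl, Complex.ofReal_one, one_smul]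

lemma norm_ev_le (t : unitInterval) (f : CA) : ‖ev t f‖ ≤ ‖f‖ := (f : CB).norm_coe_le_norm t

lemma norm_s (b : Bool) : ‖s b‖ ≤ 1 := by
  have h := CStarRing.norm_star_mul_self (x := s b)
  rw [star_s_mul_s_self] at h
  have h2 : ‖(1 : BH)‖ ≤ 1 := ContinuousLinearMap.norm_id_le
  nlinarith [norm_nonneg (s b)]

lemma close_aux {x y : BH} {b c : Bool} (hx : ‖s b - x‖ < 1 / 10) (hy : ‖s c - y‖ < 1 / 10) :
    ‖star x * y - star (s b) * s c‖ ≤ 1 / 4 := by
  have h1 : star x * y - star (s b) * s c = -(star (s b - x) * y) - star (s b) * (s c - y) := by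
    rw [star_sub, sub_mul, mul_sub]
    abel
  have h2 : ‖y‖ ≤ 11 / 10 := by
    have : y = s c - (s c - y) := by abel
    rw [this]
    refine (norm_sub_le _ _).trans ?_
    linarith [norm_s c]
  rw [h1]
  refine (norm_sub_le _ _).trans ?_
  rw [norm_neg]
  have h3 : ‖star (s b - x) * y‖ ≤ 1 / 10 * (11 / 10) := by
    refine (norm_mul_le _ _).trans ?_
    rw [norm_star]
    exact mul_le_mul hx.le h2 (norm_nonneg _) (by norm_num)
  have h4 : ‖star (s b) * (s c - y)‖ ≤ 1 * (1 / 10) := by
    refine (norm_mul_le _ _).trans ?_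
    rw [norm_star]
    exact mul_le_mul (norm_s b) hy.le (norm_nonneg _) (by norm_num)
  linarith

theorem not_locallyTypeI_CA : ¬ LocallyTypeI CA := by
  intro hloc
  classical
  obtain ⟨B, hBc, hBI, hB⟩ := hloc {gen false, gen true} (1 / 10) (by norm_num)
  obtain ⟨y0, hy0, hd0⟩ := hB (gen false) (by simp)
  obtain ⟨y1, hy1, hd1⟩ := hB (gen true) (by simp)
  let ρ0 : B →⋆ₙₐ[ℂ] BH := (ev 1).comp (NonUnitalStarSubalgebraClass.subtype B)
  have hρ0 : ∀ b : B, ρ0 b = ev 1 (b : CA) := fun b => rfl
  let R0 : NonUnitalStarSubalgebra ℂ BH := (NonUnitalStarAlgHom.range ρ0).topologicalClosure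
  have hR0 : ∀ x : BH, x ∈ R0 ↔ x ∈ closure (Set.range ρ0) := fun x => Iff.rfl
  have hR0c : IsClosed (R0 : Set BH) := NonUnitalStarSubalgebra.isClosed_topologicalClosure _
  set c0 : BH := ρ0 ⟨y0, hy0⟩ with hc0
  set c1 : BH := ρ0 ⟨y1, hy1⟩ with hc1
  have hm0 : c0 ∈ R0 := (hR0 _).2 (subset_closure ⟨_, rfl⟩)
  have hm1 : c1 ∈ R0 := (hR0 _).2 (subset_closure ⟨_, rfl⟩)
  have e0 : ‖s false - c0‖ < 1 / 10 := by
    rw [← ev_one_gen, hc0, hρ0, ← map_sub]
    exact (norm_ev_le _ _).trans_lt hd0
  have e1 : ‖s true - c1‖ < 1 / 10 := by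
    rw [← ev_one_gen, hc1, hρ0, ← map_sub]
    exact (norm_ev_le _ _).trans_lt hd1
  have n0 : ‖star c0 * c0 - 1‖ ≤ 1 / 4 := by
    have := close_aux e0 e0
    rwa [star_s_mul_s_self] at this
  have n1 : ‖star c1 * c1 - 1‖ ≤ 1 / 4 := by
    have := close_aux e1 e1
    rwa [star_s_mul_s_self] at this
  have n01 : ‖star c0 * c1‖ ≤ 1 / 4 := by
    have := close_aux e0 e1
    rwa [star_s_mul_s_ne (by decide), sub_zero] at this
  -- the unit
  have hone : (1 : BH) ∈ R0 := by
    set x : BH := star c0 * c0 with hx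
    have hxR : x ∈ R0 := mul_mem (star_mem hm0) hm0
    have hk : ∀ k : ℕ, 1 - (1 - x) ^ k ∈ R0 := by
      intro k
      induction k with
      | zero => rw [pow_zero, sub_self]; exact zero_mem _
      | succ k ih =>
        have : 1 - (1 - x) ^ (k + 1) = (1 - (1 - x) ^ k) + x - (1 - (1 - x) ^ k) * x := by
          rw [pow_succ]
          noncomm_ring
        rw [this]
        exact sub_mem (add_mem ih hxR) (mul_mem ih hxR)
    have hlim : Tendsto (fun k : ℕ => 1 - (1 - x) ^ k) atTop (𝓝 (1 - 0)) := by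
      refine tendsto_const_nhds.sub ?_
      apply tendsto_pow_atTop_nhds_zero_of_norm_lt_one
      rw [norm_sub_rev]
      linarith
    rw [sub_zero] at hlim
    exact hR0c.mem_of_tendsto hlim (Eventually.of_forall hk)
  let R : StarSubalgebra ℂ BH :=
    { carrier := R0
      mul_mem' := fun ha hb => mul_mem ha hb
      add_mem' := fun ha hb => add_mem ha hb
      star_mem' := fun ha => star_mem ha
      algebraMap_mem' := fun c => by
        show algebraMap ℂ BH c ∈ R0
        rw [Algebra.algebraMap_eq_smul_one]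
        exact SMulMemClass.smul_mem c hone }
  have hRc : IsClosed (R : Set BH) := hR0c
  let _ : CStarAlgebra R := StarSubalgebra.cstarAlgebra R (h_closed := hRc)
  have hnt : Nontrivial R := by
    refine ⟨1, 0, fun h => ?_⟩
    have h2 : (1 : BH) = 0 := congrArg Subtype.val h
    have h3 : xi = 0 := congrArg (fun T : BH => T xi) h2
    have := norm_xi
    rw [h3, norm_zero] at this
    exact zero_ne_one this
  have hmem : ∀ b : B, ρ0 b ∈ R := fun b => (hR0 _).2 (subset_closure ⟨b, rfl⟩)
  let ρ : B →⋆ₙₐ[ℂ] R :=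
    { toFun := fun b => ⟨ρ0 b, hmem b⟩
      map_smul' := fun c b => Subtype.ext (map_smul ρ0 c b)
      map_zero' := Subtype.ext (map_zero ρ0)
      map_add' := fun a b => Subtype.ext (map_add ρ0 a b)
      map_mul' := fun a b => Subtype.ext (map_mul ρ0 a b)
      map_star' := fun a => Subtype.ext (map_star ρ0 a) }
  have hdense : DenseRange ρ := by
    intro x
    have hx : (x : BH) ∈ closure (Set.range ρ0) := (hR0 _).1 x.2
    rw [Metric.mem_closure_iff] at hx ⊢
    intro ε hε
    obtain ⟨_, ⟨b, rfl⟩, hb⟩ := hx ε hε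
    exact ⟨ρ b, ⟨b, rfl⟩, hb⟩
  exact not_typeI ρ hdense ⟨c0, hm0⟩ ⟨c1, hm1⟩ n0 n1 n01 hBI

end Pool.Agent.W658.Cone
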