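import Pool.Agent.W921.RF.Defs

/-! Project RF, part EVW: the evaluation of words by codes is correct. -/

set_option autoImplicit false

namespace Pool.Agent.W658.RFEVW

open Pool.Agent.W921.RF Nat.Partrec

lemma mk_cons (f : FreeGroup (Fin 2) →* Equiv.Perm ℕ) (l : Lt) (w : List Lt) (p : ℕ) :
    f (FreeGroup.mk (l :: w)) p = f (FreeGroup.mk [l]) (f (FreeGroup.mk w) p) := by
  have h : FreeGroup.mk (l :: w) = FreeGroup.mk [l] * FreeGroup.mk w := by
    rw [FreeGroup.mul_mk]
    rfl
  rw [h, map_mul]
  rfl

theorem task : Pool.Agent.W921.RF.S_EVW := by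
  intro f hf
  have hc : ∀ l : Lt, ∃ c : Code, ∀ n, Code.eval c n = Part.some (f (FreeGroup.mk [l]) n) := by
    intro l
    have h1 : Nat.Partrec (fun n => Part.some (f (FreeGroup.mk [l]) n)) :=
      Partrec.nat_iff.1 (hf (FreeGroup.mk [l]))
    obtain ⟨c, hc⟩ := Code.exists_code.1 h1
    exact ⟨c, fun n => by rw [hc]⟩
  choose c hc using hc
  obtain ⟨e, he⟩ : ∃ e : ℕ, ∀ l : Lt, cod e l = c l := by
    refine ⟨Nat.pair (Nat.pair (Encodable.encode (c (0, true))) (Encodable.encode (c (0, false))))
      (Nat.pair (Encodable.encode (c (1, true))) (Encodable.encode (c (1, false)))), ?_⟩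
    rintro ⟨i, b⟩
    unfold cod
    fin_cases i <;> cases b <;> simp
  refine ⟨e, ?_, ?_⟩
  · intro s w
    induction w with
    | nil =>
      intro p q h
      simp only [evw, Option.some.injEq] at h
      rw [← h]
      have : FreeGroup.mk ([] : List (Fin 2 × Bool)) = 1 := rfl
      rw [this, map_one]
      rfl
    | cons l w ih =>
      intro p q h
      simp only [evw, Option.bind_eq_some_iff] at h
      obtain ⟨q1, h1, h2⟩ := h
      have h3 := ih p q1 h1
      have h4 : q ∈ Code.eval (cod e l) q1 := Code.evaln_sound h2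
      rw [he, hc, Part.mem_some_iff] at h4
      rw [mk_cons, h4, h3]
  · intro w p
    induction w with
    | nil =>
      refine ⟨0, fun s _ => ?_⟩
      have : FreeGroup.mk ([] : List (Fin 2 × Bool)) = 1 := rfl
      rw [this, map_one]
      rfl
    | cons l w ih =>
      obtain ⟨s0, hs0⟩ := ih
      have h1 : f (FreeGroup.mk [l]) (f (FreeGroup.mk w) p) ∈
          Code.eval (cod e l) (f (FreeGroup.mk w) p) := by
        rw [he, hc]
        exact Part.mem_some _
      obtain ⟨s1, hs1⟩ := Code.evaln_complete.1 h1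
      refine ⟨max s0 s1, fun s hs => ?_⟩
      have h2 := hs0 s (le_trans (le_max_left _ _) hs)
      have h3 := Code.evaln_mono (le_trans (le_max_right _ _) hs) hs1
      simp only [evw]
      rw [h2, Option.bind_some, mk_cons]
      exact h3

end Pool.Agent.W658.RFEVW
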